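import Mathlib

/-! MP_8d2143_an: continuous functions on a Cantor cube depend, up to `δ`, on finitely many coordinates. -/

set_option autoImplicit false

namespace Pool.Agent.Helper18.HF

open Filter Topology

theorem fin_det {I E : Type*} [PseudoMetricSpace E] (a : C(I → Bool, E)) {δ : ℝ} (hδ : 0 < δ) :
    ∃ S : Finset I, ∀ w w' : I → Bool, (∀ i ∈ S, w i = w' i) → dist (a w) (a w') < δ := by
  classical
  have h1 : ∀ w₀ : I → Bool, ∃ S : Finset I, ∀ w : I → Bool, (∀ i ∈ S, w i = w₀ i) → dist (a w) (a w₀) < δ / 2 := by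
    intro w₀
    have ho : IsOpen {w : I → Bool | dist (a w) (a w₀) < δ / 2} :=
      isOpen_lt (by fun_prop) continuous_const
    obtain ⟨S, u, hu, hs⟩ := isOpen_pi_iff.1 ho w₀ (by simpa using (half_pos hδ))
    refine ⟨S, fun w hw => hs ?_⟩
    intro i hi
    rw [hw i hi]
    exact (hu i hi).2
  choose S hS using h1
  have h2 : ∀ w₀ : I → Bool, {w : I → Bool | ∀ i ∈ S w₀, w i = w₀ i} ∈ 𝓝 w₀ := by
    intro w₀
    have h3 : IsOpen {w : I → Bool | ∀ i ∈ S w₀, w i = w₀ i} := by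
      have h4 : {w : I → Bool | ∀ i ∈ S w₀, w i = w₀ i} = ⋂ i ∈ S w₀, {w : I → Bool | w i = w₀ i} := by
        ext w
        simp
      rw [h4]
      refine isOpen_biInter_finset fun i _ => ?_
      have h8 : Continuous fun w : I → Bool => w i := continuous_apply i
      exact h8.isOpen_preimage {w₀ i} (isOpen_discrete _)
    exact h3.mem_nhds fun i _ => rfl
  obtain ⟨t, ht⟩ := CompactSpace.elim_nhds_subcover _ h2
  refine ⟨t.biUnion S, fun w w' hw => ?_⟩
  have h5 : w ∈ ⋃ x ∈ t, {w : I → Bool | ∀ i ∈ S x, w i = x i} := by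
    rw [ht]
    trivial
  simp only [Set.mem_iUnion, Set.mem_ofPred_eq] at h5
  obtain ⟨x, hx, h6⟩ := h5
  have h7 : ∀ i ∈ S x, w' i = x i := fun i hi => by
    rw [← hw i (Finset.mem_biUnion.2 ⟨x, hx, hi⟩)]
    exact h6 i hi
  calc dist (a w) (a w') ≤ dist (a w) (a x) + dist (a w') (a x) := dist_triangle_right _ _ _
    _ < δ / 2 + δ / 2 := add_lt_add (hS x w h6) (hS x w' h7)
    _ = δ := add_halves δ

/-- a free pair -/
theorem free_pair {X : Type*} (hX : Cardinal.aleph 2 ≤ Cardinal.mk X) (C : X → Set X) (hC : ∀ x, (C x).Countable) :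
    ∃ x y : X, x ≠ y ∧ y ∉ C x ∧ x ∉ C y := by
  have h1 : Cardinal.aleph 1 ≤ Cardinal.mk X :=
    (Cardinal.aleph_le_aleph.2 (by norm_num)).trans hX
  obtain ⟨Y, hY⟩ := Cardinal.le_mk_iff_exists_set.1 h1
  have h2 : Cardinal.mk (Y ∪ ⋃ x ∈ Y, C x : Set X) < Cardinal.mk X := by
    have h3 : Cardinal.mk (⋃ x ∈ Y, C x : Set X) ≤ Cardinal.aleph 1 := by
      rw [Set.biUnion_eq_iUnion]
      refine (Cardinal.mk_iUnion_le_sum_mk).trans ?_
      refine (Cardinal.sum_le_mk_mul_iSup _).trans ?_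
      rw [hY]
      have h4 : (⨆ x : Y, Cardinal.mk (C x.1)) ≤ Cardinal.aleph0 := ciSup_le' fun x => (hC x.1).le_aleph0
      calc Cardinal.aleph 1 * (⨆ x : Y, Cardinal.mk (C x.1)) ≤ Cardinal.aleph 1 * Cardinal.aleph0 :=
            mul_le_mul' le_rfl h4
        _ = Cardinal.aleph 1 := Cardinal.mul_eq_left (Cardinal.aleph0_le_aleph 1) (Cardinal.aleph0_le_aleph 1)
            Cardinal.aleph0_ne_zero
    calc Cardinal.mk (Y ∪ ⋃ x ∈ Y, C x : Set X) ≤ Cardinal.mk Y + Cardinal.mk (⋃ x ∈ Y, C x : Set X) :=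
          Cardinal.mk_union_le _ _
      _ ≤ Cardinal.aleph 1 + Cardinal.aleph 1 := add_le_add hY.le h3
      _ = Cardinal.aleph 1 := Cardinal.add_eq_self (Cardinal.aleph0_le_aleph 1)
      _ < Cardinal.aleph 2 := Cardinal.aleph_lt_aleph.2 (by norm_num)
      _ ≤ Cardinal.mk X := hX
  obtain ⟨y, hy⟩ : ∃ y : X, y ∉ (Y ∪ ⋃ x ∈ Y, C x : Set X) := by
    by_contra hcon
    push Not at hcon
    have : (Y ∪ ⋃ x ∈ Y, C x : Set X) = Set.univ := Set.eq_univ_of_forall hcon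
    rw [this, Cardinal.mk_univ] at h2
    exact lt_irrefl _ h2
  obtain ⟨x, hxY, hx⟩ : ∃ x ∈ Y, x ∉ C y := by
    by_contra hcon
    push Not at hcon
    have h5 : Cardinal.mk Y ≤ Cardinal.aleph0 := (Cardinal.mk_le_mk_of_subset hcon).trans (hC y).le_aleph0
    rw [hY] at h5
    exact absurd h5 (not_le.2 Cardinal.aleph0_lt_aleph_one)
  refine ⟨x, y, ?_, ?_, hx⟩
  · rintro rfl
    exact hy (Or.inl hxY)
  · intro h6
    exact hy (Or.inr (Set.mem_iUnion₂.2 ⟨x, hxY, h6⟩))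

end Pool.Agent.Helper18.HF
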