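import Mathlib

/-! MP_8d2143_an: Cantor cubes with at most `2 ^ #T` factors have a dense subset of size `#T`, and the algebra of
continuous functions on such a cube is isometric to a subalgebra of the bounded functions on `T`. -/

set_option autoImplicit false

namespace Pool.Agent.Helper18.HF

open Filter Topology BoundedContinuousFunction Cardinal

/-- the restriction to a finite set of digits -/
def pre {I T : Type*} [DecidableEq T] (φ : I → T → Bool) (S : Finset T) (i : I) : Finset T :=
  S.filter fun k => φ i k = true

theorem exists_surj (T : Type*) [Infinite T] :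
    ∃ f : T → Finset T × Finset (Finset T), Function.Surjective f := by
  obtain ⟨e⟩ : Nonempty (T ≃ Finset T × Finset (Finset T)) := by
    rw [← Cardinal.eq, mk_prod, lift_id, lift_id, mk_finset_of_infinite, mk_finset_of_infinite,
      mk_finset_of_infinite, mul_eq_self (aleph0_le_mk T)]
  exact ⟨e, e.surjective⟩

theorem exists_dense {I T : Type*} [Infinite T] (φ : I → T → Bool) (hφ : Function.Injective φ) :
    ∃ W : T → I → Bool, DenseRange W := by
  classical
  let W' : Finset T × Finset (Finset T) → I → Bool := fun z i => decide (pre φ z.1 i ∈ z.2)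
  have hW : DenseRange W' := by
    rw [DenseRange, dense_iff_inter_open]
    rintro U hU ⟨w₀, hw₀⟩
    obtain ⟨F, u, hu, hs⟩ := isOpen_pi_iff.1 hU w₀ hw₀
    have h1 : ∀ i j : I, ∃ n : T, i ≠ j → ∀ S : Finset T, n ∈ S → pre φ S i ≠ pre φ S j := by
      intro i j
      by_cases hij : i = j
      · exact ⟨Classical.arbitrary T, fun h => absurd hij h⟩
      · obtain ⟨k, hk⟩ := Function.ne_iff.1 (hφ.ne hij)
        refine ⟨k, fun _ S hS he => hk ?_⟩
        have h2 : (k ∈ pre φ S i) ↔ (k ∈ pre φ S j) := by rw [he]
        unfold pre at h2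
        rw [Finset.mem_filter, Finset.mem_filter] at h2
        simp only [hS, true_and] at h2
        exact Bool.eq_iff_iff.2 h2
    choose n hn using h1
    set N : Finset T := (F ×ˢ F).image fun z => n z.1 z.2 with hN
    refine ⟨W' (N, (F.filter fun i => w₀ i = true).image (pre φ N)), hs ?_, ⟨_, rfl⟩⟩
    intro i hi
    have h2 : W' (N, (F.filter fun i => w₀ i = true).image (pre φ N)) i = w₀ i := by
      have hiF : i ∈ F := hi
      rw [Bool.eq_iff_iff]
      show decide (pre φ N i ∈ (F.filter fun i => w₀ i = true).image (pre φ N)) = true ↔ _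
      rw [decide_eq_true_eq, Finset.mem_image]
      constructor
      · rintro ⟨j, hj, hji⟩
        rw [Finset.mem_filter] at hj
        have h3 : j = i := by
          by_contra hne
          have hle : n j i ∈ N := Finset.mem_image.2 ⟨(j, i), Finset.mem_product.2 ⟨hj.1, hiF⟩, rfl⟩
          exact hn j i hne N hle hji
        rw [← h3]
        exact hj.2
      · intro h
        exact ⟨i, Finset.mem_filter.2 ⟨hiF, h⟩, rfl⟩
    rw [h2]
    exact (hu i hi).2
  obtain ⟨f, hf⟩ := exists_surj T
  refine ⟨W' ∘ f, ?_⟩
  rw [DenseRange, hf.range_comp]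
  exact hW

variable {K B T : Type*} [TopologicalSpace K] [CompactSpace K] [NonUnitalCStarAlgebra B] [TopologicalSpace T]
  [DiscreteTopology T]

/-- restriction to a family of points -/
noncomputable def Rn (W : T → K) : C(K, B) →⋆ₙₐ[ℂ] (T →ᵇ B) where
  toFun a := (mkOfCompact a).compContinuous ⟨W, continuous_of_discreteTopology⟩
  map_smul' _ _ := rfl
  map_zero' := rfl
  map_add' _ _ := rfl
  map_mul' _ _ := rfl
  map_star' _ := rfl

theorem Rn_apply (W : T → K) (a : C(K, B)) (n : T) : Rn W a n = a (W n) := rfl

theorem Rn_isometry {W : T → K} (hW : DenseRange W) : Isometry (Rn W : C(K, B) → (T →ᵇ B)) := by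
  refine AddMonoidHomClass.isometry_of_norm _ fun a => le_antisymm ?_ ?_
  · rw [BoundedContinuousFunction.norm_le (norm_nonneg _)]
    intro n
    exact ContinuousMap.norm_coe_le_norm a (W n)
  · rw [ContinuousMap.norm_le _ (norm_nonneg _)]
    intro w
    have h1 : IsClosed {w : K | ‖a w‖ ≤ ‖Rn W a‖} := isClosed_le (by fun_prop) continuous_const
    exact isClosed_property hW h1 (fun n => (Rn W a).norm_coe_le_norm n) w

end Pool.Agent.Helper18.HF
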