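import Pool.Agent.Helper18.AIU.Cut

/-! MP_8d2143_an: the two by two matrices. -/

set_option autoImplicit false

open scoped ComplexOrder

namespace Pool.Agent.Helper18.HF

open Cardinal Pool.Agent.Helper18.AIU

theorem mk_M2 : #(CStarMatrix (Fin 2) (Fin 2) ℂ) ≤ 2 ^ ℵ₀ := by
  have h2 : (𝔠 : Cardinal.{0}) ^ (2 : Cardinal.{0}) = 𝔠 := by
    rw [show (2 : Cardinal.{0}) = ((2 : ℕ) : Cardinal.{0}) by norm_num, power_natCast, pow_two, continuum_mul_self]
  have h1 : #(Fin 2 → Fin 2 → ℂ) = 2 ^ ℵ₀ := by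
    simp [Cardinal.mk_pi, mk_complex, h2]
  exact h1.le

/-- a diagonal projection -/
noncomputable def E11 : CStarMatrix (Fin 2) (Fin 2) ℂ := CStarMatrix.ofMatrix !![1, 0; 0, 0]

/-- a projection which does not commute with it -/
noncomputable def Q2 : CStarMatrix (Fin 2) (Fin 2) ℂ := CStarMatrix.ofMatrix !![1 / 2, 1 / 2; 1 / 2, 1 / 2]

theorem not_cent_M2 : ¬ ∀ f p : CStarMatrix (Fin 2) (Fin 2) ℂ, Pj f → Pj p → p * f = p →
    ∀ x, p * (f * x * f) = f * x * f * p := by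
  intro h
  have h1 := h 1 E11 ⟨by simp [IsIdempotentElem], by simp [isSelfAdjoint_iff]⟩ ⟨?_, ?_⟩ (mul_one _) Q2
  · rw [one_mul, mul_one] at h1
    have h2 := congrFun (congrFun h1 0) 1
    simp [E11, Q2, CStarMatrix.mul_apply] at h2
  · show E11 * E11 = E11
    ext i j
    fin_cases i <;> fin_cases j <;> simp [E11, CStarMatrix.mul_apply]
  · rw [isSelfAdjoint_iff]
    ext i j
    fin_cases i <;> fin_cases j <;> simp [E11, CStarMatrix.star_apply]

end Pool.Agent.Helper18.HF
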