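import Pool.Agent.Helper18.AIU.Emb

/-! MP_8d2143_an: a projection below `f` which does not commute with `f B f` is a limit of other projections
below `f`. -/

set_option autoImplicit false

namespace Pool.Agent.Helper18.HF

open Pool.Agent.Helper18.AIU Filter Topology Unitization

variable {B : Type*} [NonUnitalCStarAlgebra B]

theorem Pj.eq_zero {d : B} (h : Pj d) (hn : ‖d‖ < 1) : d = 0 := by
  have h1 : ‖d‖ = ‖d‖ * ‖d‖ := by
    conv_lhs => rw [← h.1.eq]
    conv_lhs => rw [show d * d = star d * d by rw [h.2.star_eq]]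
    exact CStarRing.norm_star_mul_self
  have h2 : ‖d‖ = 0 := by
    by_contra hne
    have hpos : 0 < ‖d‖ := lt_of_le_of_ne (norm_nonneg _) (Ne.symm hne)
    nlinarith
  exact norm_eq_zero.1 h2

/-- a projection below another one at distance less than `1` is equal to it -/
theorem eq_of_le {a b : B} (ha : Pj a) (hb : Pj b) (hab : a * b = a) (hn : ‖b - a‖ < 1) : a = b := by
  have hba : b * a = a := by
    have := congrArg star hab
    rwa [star_mul, ha.2.star_eq, hb.2.star_eq] at this
  have h1 : Pj (b - a) := by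
    refine ⟨?_, ?_⟩
    · show (b - a) * (b - a) = b - a
      rw [sub_mul, mul_sub, mul_sub, hb.1.eq, ha.1.eq, hab, hba]
      abel
    · rw [isSelfAdjoint_iff, star_sub, ha.2.star_eq, hb.2.star_eq]
  exact (sub_eq_zero.1 (Pj.eq_zero h1 hn)).symm

theorem io_add (a b : B) : io (a + b) = io a + io b := inr_add ℂ a b

theorem io_zero : io (0 : B) = 0 := inr_zero ℂ

/-- the projection onto the support of `p + y` -/
theorem cutB {p y f : B} (hp : Pj p) (hy : ‖y‖ ≤ 1 / 4) (hpy : p * y = y) (hf : (p + y) * f = p + y) :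
    ∃ c : B, Pj c ∧ c * f = c ∧ (p + y) * c = p + y ∧ ‖c - p‖ ≤ 8 * ‖y‖ := by
  have hpp : p * p = p := hp.1.eq
  have hps : star p = p := hp.2.star_eq
  obtain ⟨c, hc, h1, h2, h3, -⟩ := exists_cut (io p) (1 + io y) (io_pj hp)
    (by rw [add_sub_cancel_left, io_norm]; exact hy)
  have hpY : io p * (1 + io y) = io (p + y) := by
    rw [mul_add, mul_one, ← io_mul, hpy, io_add]
  rw [hpY] at h1
  have h4 : c * (1 - io f) = 0 := by
    refine h2 _ ?_
    rw [hpY, mul_sub, mul_one, ← io_mul, hf, sub_self]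
  rw [mul_sub, mul_one, sub_eq_zero] at h4
  obtain ⟨q, hq⟩ := exists_io (b := c) (by rw [h4, map_mul, fst_io, mul_zero])
  subst hq
  have hqf : q * f = q := io_inj (by rw [io_mul, ← h4])
  have hq1 : (p + y) * q = p + y := io_inj (by rw [io_mul, h1])
  have hqp : Pj q := pj_of_io hc
  refine ⟨q, hqp, hqf, hq1, ?_⟩
  have h5 : ‖q - q * p‖ ≤ 6 * ‖y‖ := by
    have h6 := h3 (1 - io p)
    rw [hpY, mul_sub, mul_one, mul_sub, mul_one, ← io_mul, ← io_sub, ← io_mul, ← io_sub, io_norm, io_norm,
      add_mul, hpp] at h6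
    have h7 : ‖p + y - (p + y * p)‖ ≤ 2 * ‖y‖ := by
      rw [show p + y - (p + y * p) = y - y * p by abel]
      calc ‖y - y * p‖ ≤ ‖y‖ + ‖y * p‖ := norm_sub_le _ _
        _ ≤ ‖y‖ + ‖y‖ * 1 := by
            refine add_le_add le_rfl ((norm_mul_le _ _).trans ?_)
            exact mul_le_mul_of_nonneg_left hp.norm_le (norm_nonneg _)
        _ = 2 * ‖y‖ := by ring
    linarith
  have h8 : ‖q * p - p‖ ≤ 2 * ‖y‖ := by
    have h9 : q * p - p = star (p * q - p) := by
      rw [star_sub, star_mul, hps, hqp.2.star_eq]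
    have h10 : p * q - p = y - y * q := by
      rw [add_mul] at hq1
      calc p * q - p = (p * q + y * q) - y * q - p := by abel
        _ = (p + y) - y * q - p := by rw [hq1]
        _ = y - y * q := by abel
    rw [h9, norm_star, h10]
    calc ‖y - y * q‖ ≤ ‖y‖ + ‖y * q‖ := norm_sub_le _ _
      _ ≤ ‖y‖ + ‖y‖ * 1 := by
          refine add_le_add le_rfl ((norm_mul_le _ _).trans ?_)
          exact mul_le_mul_of_nonneg_left hqp.norm_le (norm_nonneg _)
      _ = 2 * ‖y‖ := by ring
  calc ‖q - p‖ = ‖(q - q * p) + (q * p - p)‖ := by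
        congr 1
        abel
    _ ≤ ‖q - q * p‖ + ‖q * p - p‖ := norm_add_le _ _
    _ ≤ 8 * ‖y‖ := by linarith

/-- an almost dominated projection is near a dominated one -/
theorem near {p f : B} (hp : Pj p) (hf : Pj f) {ε : ℝ} (hε : ε ≤ 1 / 4) (h : ‖p - f * p‖ ≤ ε) :
    ∃ q : B, Pj q ∧ q * f = q ∧ ‖q - p‖ ≤ 8 * ε := by
  have h1 : ‖p * f - p‖ ≤ ε := by
    have h2 : p * f - p = -star (p - f * p) := by
      rw [star_sub, star_mul, hp.2.star_eq, hf.2.star_eq]
      abel
    rw [h2, norm_neg, norm_star]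
    exact h
  obtain ⟨c, hc, h3, -, h4⟩ := cutB (p := p) (y := p * f - p) (f := f) hp (h1.trans hε)
    (by rw [mul_sub, ← mul_assoc, hp.1.eq]) (by rw [add_sub_cancel, mul_assoc, hf.1.eq])
  exact ⟨c, hc, h3, h4.trans (by linarith)⟩

theorem exists_z {p x f : B} (hp : Pj p) (hf : Pj f) (hpf : p * f = p)
    (hx : p * (f * x * f) ≠ f * x * f * p) : ∃ z : B, z ≠ 0 ∧ p * z = 0 ∧ z * p = z ∧ f * z = z := by
  have hpp : p * p = p := hp.1.eq
  have hps : star p = p := hp.2.star_eq
  have hff : f * f = f := hf.1.eq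
  have hfs : star f = f := hf.2.star_eq
  have hfp : f * p = p := by
    have := congrArg star hpf
    rwa [star_mul, hps, hfs] at this
  have key : ∀ u : B, f * u = u → p * (u * p - p * u * p) = 0 ∧ (u * p - p * u * p) * p = u * p - p * u * p ∧
      f * (u * p - p * u * p) = u * p - p * u * p := by
    intro u hu
    refine ⟨?_, ?_, ?_⟩
    · rw [mul_sub, ← mul_assoc, ← mul_assoc, ← mul_assoc, hpp, sub_self]
    · rw [sub_mul, mul_assoc, hpp, mul_assoc (p * u), hpp]
    · rw [mul_sub, ← mul_assoc, ← mul_assoc, ← mul_assoc, hu, hfp]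
  obtain ⟨u, hu⟩ : ∃ u : B, u = f * x * f := ⟨_, rfl⟩
  rw [← hu] at hx
  have hfu : f * u = u := by rw [hu, ← mul_assoc, ← mul_assoc, hff]
  have hfu' : f * star u = star u := by
    rw [hu, star_mul, star_mul, hfs, ← mul_assoc, hff]
  by_cases h1 : u * p - p * u * p = 0
  · refine ⟨star u * p - p * star u * p, ?_, key _ hfu'⟩
    intro h2
    apply hx
    have h3 : u * p = p * u * p := sub_eq_zero.1 h1
    have h4 := congrArg star (sub_eq_zero.1 h2)
    rw [star_mul, star_mul, star_mul, star_star, hps, ← mul_assoc] at h4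
    rw [h4, h3]
  · exact ⟨u * p - p * u * p, h1, key _ hfu⟩

theorem exists_seq {p f z : B} (hp : Pj p) (hf : Pj f) (hpf : p * f = p) (hz0 : z ≠ 0) (hpz : p * z = 0)
    (hzp : z * p = z) (hfz : f * z = z) :
    ∃ e : ℕ → B, (∀ n, Pj (e n)) ∧ (∀ n, e n * f = e n) ∧ (∀ n, e n ≠ p) ∧ Tendsto e atTop (𝓝 p) := by
  have hpp : p * p = p := hp.1.eq
  have hps : star p = p := hp.2.star_eq
  have hfs : star f = f := hf.2.star_eq
  have hpzs : p * star z = star z := by
    have := congrArg star hzp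
    rwa [star_mul, hps] at this
  have hzsp : star z * p = 0 := by
    have := congrArg star hpz
    rwa [star_mul, hps, star_zero] at this
  have hzsf : star z * f = star z := by
    have := congrArg star hfz
    rwa [star_mul, hfs] at this
  have hM : 0 < ‖z‖ := norm_pos_iff.2 hz0
  have key : ∀ n : ℕ, ∃ c : B, Pj c ∧ c * f = c ∧ c ≠ p ∧ ‖c - p‖ ≤ 2 * (1 / (n + 1 : ℝ)) := by
    intro n
    have hn1 : (0 : ℝ) < n + 1 := by positivity
    set t : ℝ := 1 / (4 * ‖z‖ * (n + 1)) with ht
    have ht0 : 0 < t := by positivity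
    have htz : t * ‖z‖ = 1 / 4 * (1 / (n + 1)) := by
      rw [ht]
      field_simp
    have htz4 : t * ‖z‖ ≤ 1 / 4 := by
      rw [htz]
      have : (1 : ℝ) / (n + 1) ≤ 1 := by
        rw [div_le_one hn1]
        have : (0 : ℝ) ≤ n := Nat.cast_nonneg n
        linarith
      linarith
    set y : B := (t : ℂ) • star z with hy
    have hyn : ‖y‖ = t * ‖z‖ := by
      rw [hy, norm_smul, norm_star, Complex.norm_real, Real.norm_of_nonneg ht0.le]
    have hpy : p * y = y := by rw [hy, mul_smul_comm, hpzs]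
    have hyp : y * p = 0 := by rw [hy, smul_mul_assoc, hzsp, smul_zero]
    have hyf : y * f = y := by rw [hy, smul_mul_assoc, hzsf]
    have hy0 : y ≠ 0 := by
      rw [← norm_pos_iff, hyn]
      positivity
    obtain ⟨c, hc, h1, h2, h3⟩ := cutB (p := p) (y := y) (f := f) hp (by rw [hyn]; exact htz4) hpy
      (by rw [add_mul, hpf, hyf])
    refine ⟨c, hc, h1, ?_, ?_⟩
    · rintro rfl
      rw [add_mul, hpp, hyp, add_zero] at h2
      exact hy0 (left_eq_add.1 h2)
    · refine h3.trans ?_
      rw [hyn, htz]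
      linarith
  choose e he hef hne hen using key
  refine ⟨e, he, hef, hne, ?_⟩
  rw [tendsto_iff_norm_sub_tendsto_zero]
  refine squeeze_zero (fun _ => norm_nonneg _) hen ?_
  have := (tendsto_one_div_add_atTop_nhds_zero_nat (𝕜 := ℝ)).const_mul 2
  rwa [mul_zero] at this

/-- the continuous extension to the Cantor set: `e n` for the sequences with first `1` at `n` -/
noncomputable def ev (p : B) (e : ℕ → B) (s : ℕ → Bool) : B :=
  haveI := Classical.propDecidable (∃ n, s n = true)
  if h : ∃ n, s n = true then e (Nat.find h) else p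

omit [NonUnitalCStarAlgebra B] in
theorem ev_zero (p : B) (e : ℕ → B) : ev p e (fun _ => false) = p := by
  unfold ev
  rw [dif_neg]
  simp

theorem ev_pj {p : B} {e : ℕ → B} (hp : Pj p) (he : ∀ n, Pj (e n)) (s : ℕ → Bool) : Pj (ev p e s) := by
  unfold ev
  split_ifs
  · exact he _
  · exact hp

theorem ev_le {p f : B} {e : ℕ → B} (hp : p * f = p) (he : ∀ n, e n * f = e n) (s : ℕ → Bool) :
    ev p e s * f = ev p e s := by
  unfold ev
  split_ifs
  · exact he _
  · exact hp

omit [NonUnitalCStarAlgebra B] in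
theorem ev_single (p : B) (e : ℕ → B) (n : ℕ) : ev p e (fun k => decide (k = n)) = e n := by
  have h : ∃ k, (fun k => decide (k = n)) k = true := ⟨n, by simp⟩
  unfold ev
  rw [dif_pos h]
  congr 1
  rw [Nat.find_eq_iff]
  refine ⟨by simp, fun m hm => ?_⟩
  simp only [decide_eq_true_eq]
  exact hm.ne

theorem ev_cont {p : B} {e : ℕ → B} (he : Tendsto e atTop (𝓝 p)) : Continuous (ev p e) := by
  rw [continuous_iff_continuousAt]
  intro s
  have hk : ∀ N : ℕ, ∀ᶠ s' in 𝓝 s, ∀ k ∈ Finset.range N, s' k = s k := by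
    intro N
    rw [Filter.eventually_all_finset]
    intro k _
    have h1 : Continuous fun s' : ℕ → Bool => s' k := continuous_apply k
    exact h1.continuousAt.eventually (IsOpen.mem_nhds (isOpen_discrete {s k}) rfl)
  by_cases h : ∃ n, s n = true
  · refine Tendsto.congr' ?_ tendsto_const_nhds
    refine (hk (Nat.find h + 1)).mono fun s' hs' => ?_
    have hf : s' (Nat.find h) = true := by
      rw [hs' _ (Finset.mem_range.2 (Nat.lt_succ_self _))]
      exact Nat.find_spec h
    have h' : ∃ n, s' n = true := ⟨_, hf⟩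
    have hfind : Nat.find h' = Nat.find h := by
      rw [Nat.find_eq_iff]
      refine ⟨hf, fun m hm => ?_⟩
      rw [hs' m (Finset.mem_range.2 (hm.trans (Nat.lt_succ_self _)))]
      exact Nat.find_min h hm
    unfold ev
    rw [dif_pos h, dif_pos h', hfind]
  · rw [ContinuousAt, Metric.tendsto_nhds]
    intro ε hε
    obtain ⟨N, hN⟩ := (Metric.tendsto_atTop.1 he) ε hε
    refine (hk N).mono fun s' hs' => ?_
    have h0 : ev p e s = p := by
      unfold ev
      rw [dif_neg h]
    rw [h0]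
    unfold ev
    split_ifs with h'
    · refine hN _ ?_
      rw [ge_iff_le, Nat.le_find_iff]
      intro m hm
      rw [hs' m (Finset.mem_range.2 hm)]
      intro h2
      exact h ⟨m, h2⟩
    · rwa [dist_self]

/-- **the path** -/
theorem exists_path {p x f : B} (hp : Pj p) (hf : Pj f) (hpf : p * f = p)
    (hx : p * (f * x * f) ≠ f * x * f * p) :
    ∃ e : (ℕ → Bool) → B, Continuous e ∧ (∀ s, Pj (e s)) ∧ (∀ s, e s * f = e s) ∧
      ∃ t : ℕ → ℕ → Bool, Tendsto t atTop (𝓝 fun _ => false) ∧ ∀ n, e (t n) ≠ e fun _ => false := by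
  obtain ⟨z, hz0, hpz, hzp, hfz⟩ := exists_z hp hf hpf hx
  obtain ⟨e, he, hef, hne, hlim⟩ := exists_seq hp hf hpf hz0 hpz hzp hfz
  refine ⟨ev p e, ev_cont hlim, ev_pj hp he, ev_le hpf hef, fun n k => decide (k = n), ?_, fun n => ?_⟩
  · rw [tendsto_pi_nhds]
    intro k
    refine Tendsto.congr' ?_ tendsto_const_nhds
    refine (eventually_gt_atTop k).mono fun n hn => ?_
    simp only [Eq.comm (a := false), decide_eq_false_iff_not]
    exact hn.ne
  · rw [ev_single, ev_zero]
    exact hne n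

end Pool.Agent.Helper18.HF
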