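import Pool.Agent.Helper18.AIU.Main
import Pool.Agent.Helper18.HF.Path
import Pool.Agent.Helper18.HF.Cube

/-! MP_8d2143_an: positive cases (commuting projections; small density). -/

set_option autoImplicit false

namespace Pool.Agent.Helper18.HF

open Pool.Agent.Helper18.AIU Filter Topology Cardinal

universe u

/-- if all projections commute -/
theorem comm_inc {A : Type u} [NonUnitalCStarAlgebra A] (hH : HasPj A)
    (hcomm : ∀ p q : A, Pj p → Pj q → p * q = q * p) :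
    ∃ (Λ : Type u) (_ : Preorder Λ) (_ : IsDirected Λ (· ≤ ·)) (_ : Nonempty Λ) (e : Λ → A),
        (∀ i, IsIdempotentElem (e i) ∧ IsSelfAdjoint (e i)) ∧
        (∀ i j, i ≤ j → e i * e j = e i) ∧
        ∀ a : A, Tendsto (fun i => e i * a) atTop (𝓝 a) ∧
          Tendsto (fun i => a * e i) atTop (𝓝 a) := by
  refine net_of_directed {p : A | Pj p} ?_ (fun p hp => hp) ?_ ?_
  · obtain ⟨q, hq, -⟩ := hH ∅ 1 one_pos
    exact ⟨q, hq⟩
  · intro p hp q hq
    have hpp : p * p = p := hp.1.eq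
    have hqq : q * q = q := hq.1.eq
    have hpq := hcomm p q hp hq
    have h1 : (p + q - p * q) * p = p := by
      rw [sub_mul, add_mul, hpp, mul_assoc, ← hpq, ← mul_assoc, hpp]
      abel
    have h2 : (p + q - p * q) * q = q := by
      rw [sub_mul, add_mul, hqq, mul_assoc, hqq]
      abel
    refine ⟨p + q - p * q, ⟨?_, ?_⟩, h1, h2⟩
    · show (p + q - p * q) * (p + q - p * q) = p + q - p * q
      rw [mul_sub, mul_add, h1, h2, ← mul_assoc, h1]
    · rw [isSelfAdjoint_iff, star_sub, star_add, star_mul, hp.2.star_eq, hq.2.star_eq, hpq]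
  · intro a ε hε
    obtain ⟨q, hq, h1⟩ := hH {a} ε hε
    exact ⟨q, hq, h1 a (Finset.mem_singleton_self a)⟩

/-- density at most `ℵ₁` -/
theorem dens_inc {A : Type u} [NonUnitalCStarAlgebra A] (hH : HasPj A) {G : Set A} (hG : #G ≤ ℵ_ 1)
    (hd : Dense G) :
    ∃ (Λ : Type u) (_ : Preorder Λ) (_ : IsDirected Λ (· ≤ ·)) (_ : Nonempty Λ) (e : Λ → A),
        (∀ i, IsIdempotentElem (e i) ∧ IsSelfAdjoint (e i)) ∧
        (∀ i j, i ≤ j → e i * e j = e i) ∧
        ∀ a : A, Tendsto (fun i => e i * a) atTop (𝓝 a) ∧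
          Tendsto (fun i => a * e i) atTop (𝓝 a) := by
  refine main_omega G hG ?_ hH
  rw [Metric.dense_iff]
  intro a ε hε
  obtain ⟨g, hg, hgG⟩ := Metric.dense_iff.1 hd a (ε / 2) (by positivity)
  obtain ⟨q, hq, h1⟩ := hH {star a} (ε / 4) (by positivity)
  have h2 := h1 (star a) (Finset.mem_singleton_self _)
  refine ⟨g * q, ?_, AddSubgroup.subset_closure ⟨g, hgG, q, rfl⟩⟩
  rw [Metric.mem_ball, dist_eq_norm] at hg ⊢
  have h3 : ‖a - a * q‖ ≤ ε / 4 := by
    rw [← norm_star (a - a * q), star_sub, star_mul, hq.2.star_eq]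
    exact h2
  have h4 : g * q - a = (g - a) * q - (a - a * q) := by
    rw [sub_mul]
    abel
  rw [h4]
  calc ‖(g - a) * q - (a - a * q)‖ ≤ ‖(g - a) * q‖ + ‖a - a * q‖ := norm_sub_le _ _
    _ ≤ ‖g - a‖ * 1 + ε / 4 := by
        refine add_le_add ((norm_mul_le _ _).trans ?_) h3
        exact mul_le_mul_of_nonneg_left hq.norm_le (norm_nonneg _)
    _ < ε := by linarith

/-- subspaces of a metric space of density at most `ℵ₁` -/
theorem dens_sub {E : Type u} [PseudoMetricSpace E] {G : Set E} (hG : #G ≤ ℵ_ 1) (hd : Dense G) (D : Set E) :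
    ∃ G' : Set D, #G' ≤ ℵ_ 1 ∧ Dense G' := by
  classical
  rcases isEmpty_or_nonempty D with hD | hD
  · exact ⟨∅, by simp, fun x => (hD.false x).elim⟩
  let f : G × ℕ → D := fun z =>
    if h : ∃ y : D, dist z.1.1 y.1 < 1 / (z.2 + 1 : ℝ) then h.choose else Classical.arbitrary D
  refine ⟨Set.range f, ?_, ?_⟩
  · refine mk_range_le.trans ?_
    rw [mk_prod, lift_uzero, mk_nat, lift_aleph0]
    calc #G * ℵ₀ ≤ ℵ_ 1 * ℵ₀ := mul_le_mul' hG le_rfl
      _ = ℵ_ 1 := mul_eq_left (aleph0_le_aleph 1) (aleph0_le_aleph 1) aleph0_ne_zero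
  · rw [Metric.dense_iff]
    intro x ε hε
    obtain ⟨n, hn⟩ := exists_nat_one_div_lt (half_pos hε)
    obtain ⟨g, hg, hgG⟩ := Metric.dense_iff.1 hd x.1 (1 / (n + 1 : ℝ)) (by positivity)
    have hex : ∃ y : D, dist (⟨g, hgG⟩ : G).1 y.1 < 1 / (n + 1 : ℝ) := ⟨x, hg⟩
    refine ⟨f (⟨g, hgG⟩, n), ?_, ⟨_, rfl⟩⟩
    have h1 : dist g (f (⟨g, hgG⟩, n)).1 < 1 / (n + 1 : ℝ) := by
      show dist g (if h : ∃ y : D, dist (⟨g, hgG⟩ : G).1 y.1 < 1 / (n + 1 : ℝ) then h.choose
        else Classical.arbitrary D).1 < _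
      rw [dif_pos hex]
      exact hex.choose_spec
    rw [Metric.mem_ball] at hg ⊢
    calc dist (f (⟨g, hgG⟩, n)) x = dist (f (⟨g, hgG⟩, n)).1 x.1 := rfl
      _ ≤ dist (f (⟨g, hgG⟩, n)).1 g + dist g x.1 := dist_triangle _ _ _
      _ < 1 / (n + 1) + 1 / (n + 1) := by
          refine add_lt_add ?_ hg
          rwa [dist_comm]
      _ < ε := by linarith

theorem mk_finset_le {I : Type u} (hI : #I ≤ ℵ_ 1) : #(Finset I) ≤ ℵ_ 1 := by
  rcases finite_or_infinite I with h | h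
  · exact (lt_aleph0_of_finite _).le.trans (aleph0_le_aleph 1)
  · rw [mk_finset_of_infinite]
    exact hI

/-- `C({0,1}^I, B)` has density at most `ℵ₁` -/
theorem dens_cube {B I : Type u} [NonUnitalCStarAlgebra B] (hI : #I ≤ ℵ_ 1) {G : Set B} (hG : #G ≤ ℵ_ 1)
    (hd : Dense G) : ∃ G' : Set C(I → Bool, B), #G' ≤ ℵ_ 1 ∧ Dense G' := by
  classical
  let f : (Σ F : Finset I, ((F → Bool) → G)) → C(I → Bool, B) := fun z =>
    ⟨fun w => (z.2 fun i => w i.1).1, by
      have h1 : Continuous fun v : z.1 → Bool => (z.2 v).1 := continuous_of_discreteTopology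
      have h2 : Continuous fun w : I → Bool => (fun i : z.1 => w i.1) := by fun_prop
      exact h1.comp h2⟩
  refine ⟨Set.range f, ?_, ?_⟩
  · refine mk_range_le.trans ?_
    rw [mk_sigma]
    refine (sum_le_mk_mul_iSup _).trans ?_
    have h1 : (⨆ F : Finset I, #((F → Bool) → G)) ≤ ℵ_ 1 := by
      refine ciSup_le' fun F => ?_
      rw [← power_def, mk_fintype (F → Bool)]
      calc #G ^ ((Fintype.card (F → Bool) : ℕ) : Cardinal) ≤ ℵ_ 1 ^ ((Fintype.card (F → Bool) : ℕ) : Cardinal) :=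
            power_le_power_right hG
        _ ≤ ℵ_ 1 := power_nat_le (aleph0_le_aleph 1)
    calc #(Finset I) * (⨆ F : Finset I, #((F → Bool) → G)) ≤ ℵ_ 1 * ℵ_ 1 := mul_le_mul' (mk_finset_le hI) h1
      _ = ℵ_ 1 := mul_eq_self (aleph0_le_aleph 1)
  · rw [Metric.dense_iff]
    intro a ε hε
    obtain ⟨S, hS⟩ := fin_det a (show 0 < ε / 3 by positivity)
    have h1 : ∀ v : S → Bool, ∃ g : G, dist (a fun i => if h : i ∈ S then v ⟨i, h⟩ else false) g.1 < ε / 3 := by
      intro v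
      obtain ⟨g, hg, hgG⟩ := Metric.dense_iff.1 hd (a fun i => if h : i ∈ S then v ⟨i, h⟩ else false) (ε / 3)
        (by positivity)
      refine ⟨⟨g, hgG⟩, ?_⟩
      rw [dist_comm]
      exact hg
    choose m hm using h1
    refine ⟨f ⟨S, m⟩, ?_, ⟨_, rfl⟩⟩
    rw [Metric.mem_ball, dist_comm]
    refine lt_of_le_of_lt ((ContinuousMap.dist_le (show (0 : ℝ) ≤ ε / 3 + ε / 3 by positivity)).2 fun w => ?_)
      (show ε / 3 + ε / 3 < ε by linarith)
    have h2 := hS w (fun i => if h : i ∈ S then w i else false) fun i hi => by rw [dif_pos hi]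
    have h3 := hm fun i => w i.1
    exact (dist_triangle _ _ _).trans (add_le_add h2.le h3.le)

/-- projections below a common one commute -/
def CommB (B : Type*) [NonUnitalCStarAlgebra B] : Prop :=
  ∀ f p q : B, Pj f → Pj p → Pj q → p * f = p → q * f = q → p * q = q * p

/-- if projections of `B` below a common one commute, then all projections of a `B`-valued algebra with an
approximate identity of projections commute -/
theorem comm_of_sep {A B T : Type*} [NonUnitalCStarAlgebra A] [NonUnitalCStarAlgebra B] (hC : CommB B)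
    (π : T → A →⋆ₙₐ[ℂ] B) (hπ : ∀ a, (∀ t, π t a = 0) → a = 0) (hH : HasPj A) (P Q : A) (hP : Pj P)
    (hQ : Pj Q) : P * Q = Q * P := by
  have hpj : ∀ {R : A} (_ : Pj R) (t : T), Pj (π t R) := by
    intro R hR t
    refine ⟨?_, ?_⟩
    · show π t R * π t R = π t R
      rw [← map_mul, hR.1.eq]
    · rw [isSelfAdjoint_iff, ← map_star, hR.2.star_eq]
  rw [← sub_eq_zero]
  refine hπ _ fun t => ?_
  rw [map_sub, map_mul, map_mul]
  by_contra hne
  set p := π t P with hp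
  set q := π t Q with hq
  have hpp : Pj p := hpj hP t
  have hqq : Pj q := hpj hQ t
  have hpos : 0 < ‖p * q - q * p‖ := norm_pos_iff.2 hne
  set ε : ℝ := min (1 / 4) (‖p * q - q * p‖ / 64) with hε
  have hε0 : 0 < ε := lt_min (by norm_num) (by positivity)
  have hε1 : ε ≤ 1 / 4 := min_le_left _ _
  have hε2 : ε ≤ ‖p * q - q * p‖ / 64 := min_le_right _ _
  classical
  obtain ⟨g, hg, h1⟩ := hH {P, Q} ε hε0
  have h2 : ∀ R ∈ ({P, Q} : Finset A), ‖π t R - π t g * π t R‖ ≤ ε := by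
    intro R hR
    rw [← map_mul, ← map_sub]
    exact (NonUnitalStarAlgHom.norm_apply_le _ _).trans (h1 R hR)
  have h3 : ‖p - π t g * p‖ ≤ ε := h2 P (by simp)
  have h4 : ‖q - π t g * q‖ ≤ ε := h2 Q (by simp)
  obtain ⟨p', hp', hpf, hpn⟩ := near hpp (hpj hg t) hε1 h3
  obtain ⟨q', hq', hqf, hqn⟩ := near hqq (hpj hg t) hε1 h4
  have h5 := hC _ _ _ (hpj hg t) hp' hq' hpf hqf
  have h6 : ∀ {a b a' b' : B} (_ : Pj b) (_ : Pj a') (_ : ‖a' - a‖ ≤ 8 * ε) (_ : ‖b' - b‖ ≤ 8 * ε),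
      ‖a' * b' - a * b‖ ≤ 16 * ε := by
    intro a b a' b' hb ha' h7 h8
    have h9 : a' * b' - a * b = a' * (b' - b) + (a' - a) * b := by
      rw [mul_sub, sub_mul]
      abel
    rw [h9]
    calc ‖a' * (b' - b) + (a' - a) * b‖ ≤ ‖a' * (b' - b)‖ + ‖(a' - a) * b‖ := norm_add_le _ _
      _ ≤ ‖a'‖ * ‖b' - b‖ + ‖a' - a‖ * ‖b‖ := add_le_add (norm_mul_le _ _) (norm_mul_le _ _)
      _ ≤ 1 * (8 * ε) + (8 * ε) * 1 := by
          refine add_le_add ?_ ?_
          · exact mul_le_mul ha'.norm_le h8 (norm_nonneg _) zero_le_one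
          · exact mul_le_mul h7 hb.norm_le (norm_nonneg _) (by positivity)
      _ = 16 * ε := by ring
  have h10 : ‖p * q - q * p‖ ≤ 32 * ε := by
    have h11 : p * q - q * p = (q' * p' - q * p) - (p' * q' - p * q) := by
      rw [h5]
      abel
    rw [h11]
    calc ‖(q' * p' - q * p) - (p' * q' - p * q)‖ ≤ ‖q' * p' - q * p‖ + ‖p' * q' - p * q‖ := norm_sub_le _ _
      _ ≤ 16 * ε + 16 * ε := add_le_add (h6 hpp hq' hqn hpn) (h6 hqq hp' hpn hqn)
      _ = 32 * ε := by ring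
  linarith

end Pool.Agent.Helper18.HF
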