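import Pool.Agent.Helper18.HF.Ind
import Pool.Agent.Helper18.HF.Pos
import Pool.Agent.Helper18.HF.Ell
import Pool.Agent.Helper18.HF.MTwo

/-! MP_8d2143_an: assembly. -/

set_option autoImplicit false

open scoped ComplexOrder

namespace Pool.Agent.Helper18.HF

open Pool.Agent.Helper18.AIU Filter Topology Cardinal BoundedContinuousFunction

universe u

/-- `A` has an approximate identity of projections -/
def AU (A : Type u) [NonUnitalCStarAlgebra A] : Prop :=
  ∃ (Λ : Type u) (_ : Preorder Λ) (_ : IsDirected Λ (· ≤ ·)) (_ : Nonempty Λ) (e : Λ → A),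
    (∀ i, IsIdempotentElem (e i) ∧ IsSelfAdjoint (e i)) ∧
    ∀ a : A, Tendsto (fun i => e i * a) atTop (𝓝 a) ∧ Tendsto (fun i => a * e i) atTop (𝓝 a)

/-- `A` has an increasing approximate identity of projections -/
def IncAU (A : Type u) [NonUnitalCStarAlgebra A] : Prop :=
  ∃ (Λ : Type u) (_ : Preorder Λ) (_ : IsDirected Λ (· ≤ ·)) (_ : Nonempty Λ) (e : Λ → A),
    (∀ i, IsIdempotentElem (e i) ∧ IsSelfAdjoint (e i)) ∧
    (∀ i j, i ≤ j → e i * e j = e i) ∧
    ∀ a : A, Tendsto (fun i => e i * a) atTop (𝓝 a) ∧ Tendsto (fun i => a * e i) atTop (𝓝 a)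

theorem AU.hasPj {A : Type u} [NonUnitalCStarAlgebra A] (h : AU A) : HasPj A := by
  obtain ⟨Λ, i1, i2, i3, e, he, ha⟩ := h
  exact hasPj_of_net e he fun a => (ha a).1

theorem tendsto_right {E Λ : Type*} [NonUnitalCStarAlgebra E] [Preorder Λ] {g : Λ → E} (hg : ∀ i, Pj (g i)) {a : E}
    (h : Tendsto (fun i => g i * star a) atTop (𝓝 (star a))) : Tendsto (fun i => a * g i) atTop (𝓝 a) := by
  have h1 := h.star
  rw [star_star] at h1
  refine h1.congr fun i => ?_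
  rw [star_mul, star_star, (hg i).2.star_eq]

theorem au_of {E : Type u} [NonUnitalCStarAlgebra E] (D : NonUnitalStarSubalgebra ℂ E) [IsClosed (D : Set E)]
    {Λ : Type u} [Preorder Λ] [IsDirected Λ (· ≤ ·)] [Nonempty Λ] (g : Λ → E) (hg : ∀ i, Pj (g i))
    (hm : ∀ i, g i ∈ D) (ha : ∀ a ∈ D, Tendsto (fun i => g i * a) atTop (𝓝 a)) : AU D := by
  have hpj : ∀ i, Pj (⟨g i, hm i⟩ : D) := fun i => ⟨Subtype.ext (hg i).1.eq, Subtype.ext (hg i).2.star_eq⟩
  have hl : ∀ a : D, Tendsto (fun i => (⟨g i, hm i⟩ : D) * a) atTop (𝓝 a) := fun a =>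
    tendsto_subtype_rng.2 (ha a.1 a.2)
  exact ⟨Λ, inferInstance, inferInstance, inferInstance, fun i => ⟨g i, hm i⟩, hpj, fun a =>
    ⟨hl a, tendsto_right hpj (hl (star a))⟩⟩

theorem not_inc_of {E : Type u} [NonUnitalCStarAlgebra E] (D : NonUnitalStarSubalgebra ℂ E) [IsClosed (D : Set E)]
    (h : ∀ (Λ : Type u) (_ : Preorder Λ) (_ : IsDirected Λ (· ≤ ·)) (_ : Nonempty Λ) (r : Λ → E)
      (_ : ∀ i, Pj (r i)) (_ : ∀ i, r i ∈ D) (_ : ∀ i j, i ≤ j → r i * r j = r i)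
      (_ : ∀ a ∈ D, Tendsto (fun i => r i * a) atTop (𝓝 a)), False) : ¬ IncAU D := by
  rintro ⟨Λ, i1, i2, i3, e, he, hm, ha⟩
  refine h Λ i1 i2 i3 (fun i => (e i).1) (fun i => ⟨?_, ?_⟩) (fun i => (e i).2) ?_ ?_
  · exact congrArg Subtype.val (he i).1.eq
  · exact congrArg Subtype.val (he i).2.star_eq
  · intro i j hij
    exact congrArg Subtype.val (hm i j hij)
  · intro a haD
    exact tendsto_subtype_rng.1 (ha ⟨a, haD⟩).1

/-- projections of corners are central -/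
def Cent (B : Type*) [NonUnitalCStarAlgebra B] : Prop :=
  ∀ f p : B, Pj f → Pj p → p * f = p → ∀ x, p * (f * x * f) = f * x * f * p

theorem isDirected_idx (I : Type u) : IsDirected (Finset I × ℕ) (· ≤ ·) := by
  classical
  infer_instance

/-- **the negative half** -/
theorem exists_bad {B T I : Type u} [NonUnitalCStarAlgebra B] [TopologicalSpace T] (hI : ℵ_ 2 ≤ #I)
    {W : T → I → Bool} (hWc : Continuous W) (hWd : DenseRange W) (hC : ¬ Cent B) :
    ∃ (D : NonUnitalStarSubalgebra ℂ (T →ᵇ B)) (_ : IsClosed (D : Set (T →ᵇ B))),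
      (∀ a ∈ D, ∀ b : T →ᵇ B, ∀ d ∈ D, a * b * d ∈ D) ∧ AU D ∧ ¬ IncAU D := by
  unfold Cent at hC
  push Not at hC
  obtain ⟨f, p, hf, hp, hpf, x, hx⟩ := hC
  obtain ⟨e, hc, he, hef, t, ht, hne⟩ := exists_path hp hf hpf hx
  have hI0 : ℵ₀ ≤ #I := (aleph0_le_aleph 2).trans hI
  have hinf : Infinite I := infinite_iff.2 hI0
  obtain ⟨c⟩ : Nonempty (I × ℕ ≃ I) := by
    rw [← Cardinal.eq, mk_prod, lift_uzero, mk_nat, lift_aleph0]
    exact mul_eq_left hI0 hI0 aleph0_ne_zero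
  have hcont : ∀ F N, Continuous (hfn (mkSys c hc he hf hef W) F N) := by
    intro F N
    have h1 : hfn (mkSys c hc he hf hef W) F N = gfn c e f F N ∘ W := by
      funext τ
      exact mkSys_hfn c hc he hf hef W F N τ
    rw [h1]
    exact (gfn_cont hc f F N).comp hWc
  have hD := isClosed_Ealg (mkSys c hc he hf hef W)
  have hdir := isDirected_idx I
  refine ⟨Ealg (mkSys c hc he hf hef W), hD, fun a ha b d hd => her_Ealg _ ha hd, ?_, ?_⟩
  · exact au_of _ (fun z : Finset I × ℕ => hh (mkSys c hc he hf hef W) hcont z.1 z.2)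
      (fun z => hh_pj _ hcont z.1 z.2) (fun z => hh_mem _ hcont z.1 z.2) fun a ha => hh_tendsto _ hcont ha
  · refine not_inc_of _ ?_
    intro Λ i1 i2 i3 r hr hmem hmono hu
    exact no_inc_abs hI (mkSys c hc he hf hef W) hcont (mkSys_sep c hc he hf hef hWd ht hne) r hr hmem hmono hu

/-- **the positive half, by commutation** -/
theorem inc_of_sep {A B S : Type u} [NonUnitalCStarAlgebra A] [NonUnitalCStarAlgebra B] (hC : CommB B)
    (π : S → A →⋆ₙₐ[ℂ] B) (hπ : ∀ a, (∀ s, π s a = 0) → a = 0) (hA : AU A) : IncAU A :=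
  comm_inc hA.hasPj (comm_of_sep hC π hπ hA.hasPj)

/-- **the positive half, by size** -/
theorem inc_of_dens {E : Type u} [NonUnitalCStarAlgebra E] {G : Set E} (hG : #G ≤ ℵ_ 1) (hd : Dense G)
    (D : NonUnitalStarSubalgebra ℂ E) [IsClosed (D : Set E)] (hA : AU D) : IncAU D := by
  obtain ⟨G', hG', hd'⟩ := dens_sub hG hd (D : Set E)
  exact dens_inc hA.hasPj hG' hd'

theorem commB_of_cent {B : Type*} [NonUnitalCStarAlgebra B] (h : Cent B) : CommB B := by
  intro f p q hf hp hq hpf hqf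
  have h1 : f * q * f = q := by
    have h2 : f * q = q := by
      have := congrArg star hqf
      rwa [star_mul, hq.2.star_eq, hf.2.star_eq] at this
    rw [h2, hqf]
  have h3 := h f p hf hp hpf q
  rwa [h1] at h3

/-- evaluation at a point, on a subalgebra -/
def evT {B T : Type*} [NonUnitalCStarAlgebra B] [TopologicalSpace T] (D : NonUnitalStarSubalgebra ℂ (T →ᵇ B))
    (t : T) : D →⋆ₙₐ[ℂ] B where
  toFun a := a.1 t
  map_smul' _ _ := rfl
  map_zero' := rfl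
  map_add' _ _ := rfl
  map_mul' _ _ := rfl
  map_star' _ := rfl

theorem sub_of_cent {B T : Type u} [NonUnitalCStarAlgebra B] [TopologicalSpace T] (h : Cent B)
    (D : NonUnitalStarSubalgebra ℂ (T →ᵇ B)) [IsClosed (D : Set (T →ᵇ B))] (hA : AU D) : IncAU D :=
  inc_of_sep (commB_of_cent h) (fun t => evT D t)
    (fun _ ha => Subtype.ext (BoundedContinuousFunction.ext fun t => ha t)) hA

/-- the cardinality of the algebra of bounded functions -/
theorem mk_ell {B T : Type u} [NonUnitalCStarAlgebra B] [TopologicalSpace T] [Infinite T] (hB : #B ≤ 2 ^ #T) :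
    #(T →ᵇ B) ≤ 2 ^ #T := by
  calc #(T →ᵇ B) ≤ #(T → B) := mk_le_of_injective (f := fun a : T →ᵇ B => (a : T → B)) DFunLike.coe_injective
    _ = #B ^ #T := by rw [power_def]
    _ ≤ (2 ^ #T) ^ #T := power_le_power_right hB
    _ = 2 ^ #T := by rw [← power_mul, mul_eq_self (aleph0_le_mk T)]

theorem two_le_of_lt {c : Cardinal.{u}} (h : ℵ_ 1 < c) : ℵ_ 2 ≤ c := by
  have h3 : Order.succ (ℵ_ 1 : Cardinal.{u}) = ℵ_ 2 := by
    rw [succ_aleph]
    norm_num
  rw [← h3]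
  exact Order.succ_le_of_lt h

/-- discrete spaces -/
theorem her_imp {B T : Type u} [NonUnitalCStarAlgebra B] [TopologicalSpace T] [DiscreteTopology T] [Infinite T]
    (h : ∀ (D : NonUnitalStarSubalgebra ℂ (T →ᵇ B)) [IsClosed (D : Set (T →ᵇ B))],
      (∀ a ∈ D, ∀ b : T →ᵇ B, ∀ c ∈ D, a * b * c ∈ D) → AU D → IncAU D) : Cent B ∨ 2 ^ #T ≤ ℵ_ 1 := by
  by_contra hne
  rw [not_or, not_le] at hne
  have h2 : (ℵ_ 2 : Cardinal.{u}) ≤ 2 ^ #T := two_le_of_lt hne.2
  obtain ⟨φ⟩ : Nonempty ((ℵ_ 2 : Cardinal.{u}).out ↪ (T → Bool)) := by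
    rw [← lift_mk_le']
    simpa using h2
  obtain ⟨W, hW⟩ := exists_dense φ φ.injective
  obtain ⟨D, hcl, hher, h4, h5⟩ := exists_bad (T := T) (I := (ℵ_ 2 : Cardinal.{u}).out) (by rw [mk_out])
    continuous_of_discreteTopology hW hne.1
  exact h5 (h D hher h4)

theorem sub_of {B T : Type u} [NonUnitalCStarAlgebra B] [TopologicalSpace T] [Infinite T]
    (hB : #B ≤ 2 ^ #T) (h : Cent B ∨ 2 ^ #T ≤ ℵ_ 1) (D : NonUnitalStarSubalgebra ℂ (T →ᵇ B))
    [IsClosed (D : Set (T →ᵇ B))] (hA : AU D) : IncAU D := by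
  rcases h with h | h
  · exact sub_of_cent h D hA
  · exact inc_of_dens (G := Set.univ) (by rw [mk_univ]; exact (mk_ell hB).trans h) dense_univ D hA

/-- Cantor cubes -/
theorem her_imp_cube {B I : Type u} [NonUnitalCStarAlgebra B]
    (h : ∀ (D : NonUnitalStarSubalgebra ℂ ((I → Bool) →ᵇ B)) [IsClosed (D : Set ((I → Bool) →ᵇ B))],
      (∀ a ∈ D, ∀ b : (I → Bool) →ᵇ B, ∀ c ∈ D, a * b * c ∈ D) → AU D → IncAU D) : Cent B ∨ #I ≤ ℵ_ 1 := by
  by_contra hne
  rw [not_or, not_le] at hne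
  obtain ⟨D, hcl, hher, h4, h5⟩ := exists_bad (T := I → Bool) (I := I) (two_le_of_lt hne.2) (W := id)
    continuous_id denseRange_id hne.1
  exact h5 (h D hher h4)

theorem sub_of_cube {B I : Type u} [NonUnitalCStarAlgebra B] {G : Set B} (hG : #G ≤ ℵ_ 1) (hd : Dense G)
    (h : Cent B ∨ #I ≤ ℵ_ 1) (D : NonUnitalStarSubalgebra ℂ ((I → Bool) →ᵇ B))
    [IsClosed (D : Set ((I → Bool) →ᵇ B))] (hA : AU D) : IncAU D := by
  rcases h with h | h
  · exact sub_of_cent h D hA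
  · obtain ⟨G', hG', hd'⟩ := dens_cube h hG hd
    let Φ := ContinuousMap.isometryEquivBoundedOfCompact (I → Bool) B
    have h1 : Dense (Φ '' G') := Φ.surjective.denseRange.dense_image Φ.continuous hd'
    exact inc_of_dens (mk_image_le.trans hG') h1 D hA

theorem two_pow_iff (T : Type) [Infinite T] : 2 ^ #T ≤ ℵ_ 1 ↔ (Countable T ∧ 𝔠 = (ℵ_ 1 : Cardinal.{0})) := by
  constructor
  · intro h
    have h1 : ℵ₀ ≤ #T := aleph0_le_mk T
    have h2 : (𝔠 : Cardinal.{0}) ≤ ℵ_ 1 := by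
      refine le_trans ?_ h
      rw [← two_power_aleph0]
      exact power_le_power_left two_ne_zero h1
    refine ⟨?_, le_antisymm h2 aleph_one_le_continuum⟩
    rw [← mk_le_aleph0_iff]
    by_contra hcon
    rw [not_le] at hcon
    have h3 : ℵ_ 1 ≤ #T := by
      rw [← succ_aleph0]
      exact Order.succ_le_of_lt hcon
    have h4 : #T < 2 ^ #T := cantor _
    exact absurd (h4.trans_le h) (not_lt.2 h3)
  · rintro ⟨h1, h2⟩
    have h3 : #T = ℵ₀ := le_antisymm (mk_le_aleph0_iff.2 h1) (aleph0_le_mk T)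
    rw [h3, two_power_aleph0, h2]

theorem her_M2 {T : Type} [TopologicalSpace T] [DiscreteTopology T] [Infinite T] :
    (∀ (D : NonUnitalStarSubalgebra ℂ (T →ᵇ CStarMatrix (Fin 2) (Fin 2) ℂ))
      [IsClosed (D : Set (T →ᵇ CStarMatrix (Fin 2) (Fin 2) ℂ))],
      (∀ a ∈ D, ∀ b : T →ᵇ CStarMatrix (Fin 2) (Fin 2) ℂ, ∀ c ∈ D, a * b * c ∈ D) → AU D → IncAU D) ↔
      (Countable T ∧ 𝔠 = (ℵ_ 1 : Cardinal.{0})) := by
  rw [← two_pow_iff]
  constructor
  · intro h
    exact (her_imp h).resolve_left not_cent_M2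
  · intro h D hD _ hA
    refine sub_of ?_ (Or.inr h) D hA
    exact mk_M2.trans (power_le_power_left two_ne_zero (aleph0_le_mk T))

end Pool.Agent.Helper18.HF
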