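import Pool.Agent.Helper18.HF.Sys

/-! MP_8d2143_an: the approximate identity of the hereditary subalgebra, and no increasing one. -/

set_option autoImplicit false

namespace Pool.Agent.Helper18.HF

open Pool.Agent.Helper18.AIU Filter Topology BoundedContinuousFunction

variable {X T B : Type*} [NonUnitalCStarAlgebra B] [Nonempty X]

/-- the chosen active element -/
noncomputable def pk (S : Sys X T B) (F : Finset X) (t : T) : X :=
  Classical.epsilon fun x => x ∈ F ∧ S.Act x t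

theorem pk_spec {S : Sys X T B} {F : Finset X} {t : T} (h : ∃ x ∈ F, S.Act x t) :
    pk S F t ∈ F ∧ S.Act (pk S F t) t := by
  obtain ⟨x, hx, h1⟩ := h
  exact Classical.epsilon_spec (p := fun x => x ∈ F ∧ S.Act x t) ⟨x, hx, h1⟩

open Classical in
/-- the members of the approximate identity, as functions -/
noncomputable def hfn (S : Sys X T B) (F : Finset X) (N : ℕ) (t : T) : B :=
  if ∃ x ∈ F, S.Act x t then (if S.Nr F N t then S.q (pk S F t) t else S.f) else 0

theorem hfn_pj (S : Sys X T B) (F : Finset X) (N : ℕ) (t : T) : Pj (hfn S F N t) := by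
  unfold hfn
  split_ifs
  · exact S.pq _ _
  · exact S.pf
  · exact ⟨by simp [IsIdempotentElem], by simp [isSelfAdjoint_iff]⟩

variable [TopologicalSpace T]

/-- the members of the approximate identity -/
noncomputable def hh (S : Sys X T B) (hc : ∀ F N, Continuous (hfn S F N)) (F : Finset X) (N : ℕ) : T →ᵇ B :=
  BoundedContinuousFunction.ofNormedAddCommGroup (hfn S F N) (hc F N) 1 fun t => (hfn_pj S F N t).norm_le

theorem hh_apply (S : Sys X T B) (hc : ∀ F N, Continuous (hfn S F N)) (F : Finset X) (N : ℕ) (t : T) :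
    hh S hc F N t = hfn S F N t := rfl

theorem hh_pj (S : Sys X T B) (hc : ∀ F N, Continuous (hfn S F N)) (F : Finset X) (N : ℕ) : Pj (hh S hc F N) := by
  constructor
  · show hh S hc F N * hh S hc F N = hh S hc F N
    ext t
    exact (hfn_pj S F N t).1.eq
  · rw [isSelfAdjoint_iff]
    ext t
    exact (hfn_pj S F N t).2.star_eq

theorem hh_mem (S : Sys X T B) (hc : ∀ F N, Continuous (hfn S F N)) (F : Finset X) (N : ℕ) :
    hh S hc F N ∈ Ealg S := by
  have hfq : ∀ x t, S.f * S.q x t = S.q x t := by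
    intro x t
    have := congrArg star (S.qf x t)
    rwa [star_mul, (S.pq x t).2.star_eq, S.pf.2.star_eq] at this
  refine ⟨fun t => ?_, fun ε hε => ?_⟩
  · rw [hh_apply]
    unfold hfn
    split_ifs
    · exact ⟨hfq _ _, S.qf _ _⟩
    · exact ⟨S.pf.1.eq, S.pf.1.eq⟩
    · exact ⟨mul_zero S.f, zero_mul S.f⟩
  · obtain ⟨N₀, hN₀⟩ := S.small ε hε
    refine ⟨F, max N N₀, fun t ht => ⟨fun x hx hax => ?_, fun hn => ?_⟩⟩
    · have hex : ∃ x ∈ F, S.Act x t := ⟨x, hx, hax⟩
      have hN : S.Nr F N t := S.mono (Finset.Subset.refl F) (le_max_left _ _) ht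
      have hp := pk_spec hex
      rw [hh_apply]
      unfold hfn
      rw [if_pos hex, if_pos hN]
      have h1 : ‖S.q (pk S F t) t - S.q x t‖ ≤ ε := hN₀ F _ (le_max_right _ _) t ht _ hp.1 x hx hp.2 hax
      set p := S.q (pk S F t) t with hpdef
      have hpp : Pj p := S.pq _ _
      constructor
      · calc ‖p - S.q x t * p‖ = ‖(p - S.q x t) * p‖ := by rw [sub_mul, hpp.1.eq]
          _ ≤ ‖p - S.q x t‖ * ‖p‖ := norm_mul_le _ _
          _ ≤ ε * 1 := mul_le_mul h1 hpp.norm_le (norm_nonneg _) hε.le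
          _ = ε := mul_one ε
      · calc ‖p - p * S.q x t‖ = ‖p * (p - S.q x t)‖ := by rw [mul_sub, hpp.1.eq]
          _ ≤ ‖p‖ * ‖p - S.q x t‖ := norm_mul_le _ _
          _ ≤ 1 * ε := mul_le_mul hpp.norm_le h1 (norm_nonneg _) zero_le_one
          _ = ε := one_mul ε
    · rw [hh_apply]
      unfold hfn
      rw [if_neg (fun h => by obtain ⟨x, hx, hax⟩ := h; exact hn x hx hax), norm_zero]
      exact hε.le

theorem hh_approx (S : Sys X T B) (hc : ∀ F N, Continuous (hfn S F N)) {a : T →ᵇ B} (ha : a ∈ Ealg S) {ε : ℝ}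
    (hε : 0 < ε) :
    ∃ (F₀ : Finset X) (N₀ : ℕ), ∀ F N, F₀ ⊆ F → N₀ ≤ N → ‖hh S hc F N * a - a‖ ≤ ε := by
  rw [mem_Ealg] at ha
  obtain ⟨F₀, N₀, h1⟩ := ha.stable hε
  refine ⟨F₀, N₀, fun F N hF hN => ?_⟩
  rw [BoundedContinuousFunction.norm_le hε.le]
  intro t
  show ‖hfn S F N t * a t - a t‖ ≤ ε
  unfold hfn
  split_ifs with h2 h3
  · have hp := pk_spec h2
    rw [← norm_neg, neg_sub]
    exact ((h1 F N hF hN t h3).1 _ hp.1 hp.2).1
  · rw [(ha.1 t).1, sub_self, norm_zero]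
    exact hε.le
  · have hn : ∀ x ∈ F, ¬ S.Act x t := fun x hx hax => h2 ⟨x, hx, hax⟩
    have hN' : S.Nr F N t := S.single F N t (Classical.arbitrary X) fun u hu hau => absurd hau (hn u hu)
    rw [zero_mul, zero_sub, norm_neg]
    exact (h1 F N hF hN t hN').2 hn

theorem hh_tendsto (S : Sys X T B) (hc : ∀ F N, Continuous (hfn S F N)) {a : T →ᵇ B} (ha : a ∈ Ealg S) :
    Tendsto (fun z : Finset X × ℕ => hh S hc z.1 z.2 * a) atTop (𝓝 a) := by
  rw [Metric.tendsto_nhds]
  intro ε hε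
  obtain ⟨F₀, N₀, h⟩ := hh_approx S hc ha (half_pos hε)
  refine (eventually_ge_atTop (F₀, N₀)).mono fun z hz => ?_
  rw [dist_eq_norm]
  exact (h z.1 z.2 hz.1 hz.2).trans_lt (half_lt_self hε)

/-- **no increasing approximate identity** -/
theorem no_inc_abs (hX : Cardinal.aleph 2 ≤ Cardinal.mk X) (S : Sys X T B) (hc : ∀ F N, Continuous (hfn S F N))
    (hP : ∀ x y, x ≠ y → ∀ N' : ℕ, ∃ d : ℝ, 0 < d ∧ ∀ C : Finset X, ∃ t, S.Act x t ∧ S.Act y t ∧
      (∀ u ∈ C, u ≠ x → u ≠ y → ¬ S.Act u t) ∧ d ≤ ‖S.q x t - S.q y t‖ ∧ ‖S.q x t - S.q y t‖ < 1 / 4 ∧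
      ∀ F : Finset X, (∀ u ∈ F, S.Act u t → u = x ∨ u = y) → S.Nr F N' t)
    {Λ : Type*} [Preorder Λ] [IsDirected Λ (· ≤ ·)] [Nonempty Λ]
    (r : Λ → T →ᵇ B) (hr : ∀ i, Pj (r i)) (hmem : ∀ i, r i ∈ Ealg S)
    (hmono : ∀ i j, i ≤ j → r i * r j = r i)
    (hu : ∀ a ∈ Ealg S, Tendsto (fun i => r i * a) atTop (𝓝 a)) : False := by
  classical
  have hrt : ∀ i t, Pj (r i t) := by
    intro i t
    constructor
    · show r i t * r i t = r i t
      rw [← BoundedContinuousFunction.mul_apply, (hr i).1.eq]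
    · rw [isSelfAdjoint_iff]
      show (star (r i)) t = r i t
      rw [(hr i).2.star_eq]
  -- the indices
  have h1 : ∀ x : X, ∃ i : Λ, ‖hh S hc {x} 0 - r i * hh S hc {x} 0‖ < 1 / 2 := by
    intro x
    have h2 := Metric.tendsto_nhds.1 (hu _ (hh_mem S hc {x} 0)) (1 / 2) (by norm_num)
    obtain ⟨i, hi⟩ := h2.exists
    rw [dist_comm, dist_eq_norm] at hi
    exact ⟨i, hi⟩
  choose ι hι using h1
  have hval : ∀ x t, hh S hc {x} 0 t = S.q x t := by
    intro x t
    rw [hh_apply]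
    unfold hfn
    have hN : S.Nr {x} 0 t := S.single {x} 0 t x fun u hu _ => Finset.mem_singleton.1 hu
    by_cases hex : ∃ y ∈ ({x} : Finset X), S.Act y t
    · have hp := pk_spec hex
      rw [if_pos hex, if_pos hN, Finset.mem_singleton.1 hp.1]
    · rw [if_neg hex, S.q0 x t fun h => hex ⟨x, Finset.mem_singleton_self x, h⟩]
  have h3 : ∀ x t, ‖S.q x t - r (ι x) t * S.q x t‖ ≤ 1 / 2 := by
    intro x t
    have h4 := (hh S hc {x} 0 - r (ι x) * hh S hc {x} 0).norm_coe_le_norm t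
    rw [BoundedContinuousFunction.sub_apply, BoundedContinuousFunction.mul_apply, hval] at h4
    exact h4.trans (hι x).le
  -- the finite sets
  have h5 : ∀ (x : X) (k : ℕ), ∃ (F : Finset X) (N : ℕ), Fit S (r (ι x)) F N (1 / (k + 1 : ℝ)) :=
    fun x k => (mem_Ealg.1 (hmem (ι x))).2 _ (by positivity)
  choose F N hfit using h5
  obtain ⟨x, y, hxy, hy, hx⟩ := free_pair hX (fun x => ⋃ k, (F x k : Set X)) fun x =>
    Set.countable_iUnion fun k => (F x k).countable_toSet
  obtain ⟨j, hj1, hj2⟩ := directed_of (· ≤ ·) (ι x) (ι y)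
  obtain ⟨F', N', hfit'⟩ := (mem_Ealg.1 (hmem j)).2 (1 / 4) (by norm_num)
  -- first `d`, then `k`, then `t`
  obtain ⟨d, hd0, hd2⟩ := hP x y hxy N'
  obtain ⟨k, hk⟩ := exists_nat_one_div_lt (show 0 < d / 64 by positivity)
  obtain ⟨t, hax, hay, hC, hdist, hdist4, hN'⟩ := hd2 (F x k ∪ F y k ∪ F')
  have hd4 : d < 1 / 4 := hdist.trans_lt hdist4
  -- almost exact
  have hex : ∀ z : X, S.Act z t → (∀ u ∈ F z k, S.Act u t → u = z) → ‖r (ι z) t - S.q z t‖ ≤ d / 4 := by
    intro z haz hz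
    have hN : S.Nr (F z k) (N z k) t := S.single _ _ t z hz
    have hpos : (0 : ℝ) ≤ 1 / (k + 1 : ℝ) := by positivity
    obtain ⟨h6, h7⟩ := hfit z k t hN
    have hle : ‖r (ι z) t - S.q z t * r (ι z) t‖ ≤ d / 32 := by
      by_cases hzF : z ∈ F z k
      · have := (h6 z hzF haz).1
        linarith
      · have h8 : ‖r (ι z) t‖ ≤ 1 / (k + 1 : ℝ) := h7 fun u hu hau => hzF (by
          have h := hz u hu hau
          rw [h] at hu
          exact hu)
        calc ‖r (ι z) t - S.q z t * r (ι z) t‖ ≤ ‖r (ι z) t‖ + ‖S.q z t * r (ι z) t‖ := norm_sub_le _ _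
          _ ≤ 1 / (k + 1 : ℝ) + 1 * (1 / (k + 1 : ℝ)) := by
              refine add_le_add h8 ((norm_mul_le _ _).trans ?_)
              exact mul_le_mul (S.pq z t).norm_le h8 (norm_nonneg _) zero_le_one
          _ ≤ d / 32 := by linarith
    obtain ⟨s, hs, hsq, hsn⟩ := near (hrt (ι z) t) (S.pq z t) (by linarith) hle
    have h9 : s = S.q z t := by
      refine eq_of_le hs (S.pq z t) hsq ?_
      have h10 : S.q z t - s = (S.q z t - r (ι z) t * S.q z t) - (s - r (ι z) t) * S.q z t := by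
        rw [sub_mul, hsq]
        abel
      rw [h10]
      have h11 : ‖(s - r (ι z) t) * S.q z t‖ ≤ 8 * (d / 32) * 1 := by
        refine (norm_mul_le _ _).trans ?_
        exact mul_le_mul hsn (S.pq z t).norm_le (norm_nonneg _) (by positivity)
      have h12 := h3 z t
      calc ‖(S.q z t - r (ι z) t * S.q z t) - (s - r (ι z) t) * S.q z t‖
          ≤ ‖S.q z t - r (ι z) t * S.q z t‖ + ‖(s - r (ι z) t) * S.q z t‖ := norm_sub_le _ _
        _ < 1 := by linarith
    rw [← norm_neg, neg_sub, ← h9]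
    linarith
  have hpx : ‖r (ι x) t - S.q x t‖ ≤ d / 4 := by
    refine hex x hax fun u hu hau => ?_
    by_contra hux
    by_cases huy : u = y
    · exact hy (Set.mem_iUnion.2 ⟨k, by rw [← huy]; exact hu⟩)
    · exact hC u (Finset.mem_union_left _ (Finset.mem_union_left _ hu)) hux huy hau
  have hpy : ‖r (ι y) t - S.q y t‖ ≤ d / 4 := by
    refine hex y hay fun u hu hau => ?_
    by_contra huy
    by_cases hux : u = x
    · exact hx (Set.mem_iUnion.2 ⟨k, by rw [← hux]; exact hu⟩)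
    · exact hC u (Finset.mem_union_left _ (Finset.mem_union_right _ hu)) hux huy hau
  have hrx : r (ι x) t * r j t = r (ι x) t := by
    rw [← BoundedContinuousFunction.mul_apply, hmono _ _ hj1]
  have hry : r (ι y) t * r j t = r (ι y) t := by
    rw [← BoundedContinuousFunction.mul_apply, hmono _ _ hj2]
  -- the final contradiction
  have hfin : r (ι x) t ≠ r (ι y) t := by
    intro h
    have h13 : ‖S.q x t - S.q y t‖ ≤ d / 4 + d / 4 := by
      have h14 : S.q x t - S.q y t = (r (ι y) t - S.q y t) - (r (ι x) t - S.q x t) := by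
        rw [h]
        abel
      rw [h14]
      exact (norm_sub_le _ _).trans (add_le_add hpy hpx)
    linarith
  have hclose : ‖r (ι x) t - r (ι y) t‖ < 1 := by
    have h14 : r (ι x) t - r (ι y) t =
        ((r (ι x) t - S.q x t) + (S.q x t - S.q y t)) - (r (ι y) t - S.q y t) := by abel
    rw [h14]
    calc ‖((r (ι x) t - S.q x t) + (S.q x t - S.q y t)) - (r (ι y) t - S.q y t)‖
        ≤ ‖(r (ι x) t - S.q x t) + (S.q x t - S.q y t)‖ + ‖r (ι y) t - S.q y t‖ := norm_sub_le _ _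
      _ ≤ (‖r (ι x) t - S.q x t‖ + ‖S.q x t - S.q y t‖) + ‖r (ι y) t - S.q y t‖ :=
          add_le_add (norm_add_le _ _) le_rfl
      _ ≤ (d / 4 + 1 / 4) + d / 4 := add_le_add (add_le_add hpx hdist4.le) hpy
      _ < 1 := by linarith
  have hclose' : ‖r (ι y) t - r (ι x) t‖ < 1 := by rwa [← norm_neg, neg_sub]
  have hact : ∀ u ∈ F', S.Act u t → u = x ∨ u = y := by
    intro u hu hau
    by_contra hcon
    push Not at hcon
    exact hC u (Finset.mem_union_right _ hu) hcon.1 hcon.2 hau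
  obtain ⟨h11, h12⟩ := hfit' t (hN' F' hact)
  -- if `z` is in `F'`
  have h13 : ∀ {z : X}, z ∈ F' → S.Act z t → ‖r (ι z) t - S.q z t‖ ≤ d / 4 → r (ι z) t * r j t = r (ι z) t →
      r j t = r (ι z) t := by
    intro z hz haz hpz hrz
    have h14 := (h11 z hz haz).1
    refine (eq_of_le (hrt _ t) (hrt j t) hrz ?_).symm
    have h15 : r j t - r (ι z) t = (r j t - S.q z t * r j t) - (r (ι z) t - S.q z t) * r j t := by
      rw [sub_mul, hrz]
      abel
    rw [h15]
    have h16 : ‖(r (ι z) t - S.q z t) * r j t‖ ≤ d / 4 * 1 := by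
      refine (norm_mul_le _ _).trans ?_
      exact mul_le_mul hpz (hrt j t).norm_le (norm_nonneg _) (by positivity)
    calc ‖(r j t - S.q z t * r j t) - (r (ι z) t - S.q z t) * r j t‖
        ≤ ‖r j t - S.q z t * r j t‖ + ‖(r (ι z) t - S.q z t) * r j t‖ := norm_sub_le _ _
      _ < 1 := by linarith
  by_cases hxF : x ∈ F'
  · have h15 := h13 hxF hax hpx hrx
    rw [h15] at hry
    exact hfin (eq_of_le (hrt _ t) (hrt _ t) hry hclose).symm
  · by_cases hyF : y ∈ F'
    · have h15 := h13 hyF hay hpy hry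
      rw [h15] at hrx
      exact hfin (eq_of_le (hrt _ t) (hrt _ t) hrx hclose')
    · have h16 : ‖r j t‖ ≤ 1 / 4 := by
        refine h12 fun u hu hau => ?_
        rcases hact u hu hau with rfl | rfl
        · exact hxF hu
        · exact hyF hu
      have h17 : r j t = 0 := Pj.eq_zero (hrt j t) (h16.trans_lt (by norm_num))
      rw [h17, mul_zero] at hrx hry
      exact hfin (by rw [← hrx, ← hry])

end Pool.Agent.Helper18.HF
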