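import Pool.Agent.Helper18.HF.Pts
import Pool.Agent.Helper18.HF.Sys2

/-! MP_8d2143_an: the system given by a continuous map with dense image to a Cantor cube. -/

set_option autoImplicit false

namespace Pool.Agent.Helper18.HF

open Pool.Agent.Helper18.AIU Filter Topology BoundedContinuousFunction

variable {X I T B : Type*} [NonUnitalCStarAlgebra B]

/-- values of a continuous function on the Cantor set at sequences which agree up to `N₀` -/
theorem unif {e : (ℕ → Bool) → B} (hc : Continuous e) {η : ℝ} (hη : 0 < η) :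
    ∃ N₀ : ℕ, ∀ s s' : ℕ → Bool, (∀ k < N₀, s k = s' k) → ‖e s - e s'‖ < η := by
  obtain ⟨S, hS⟩ := fin_det (⟨e, hc⟩ : C(ℕ → Bool, B)) hη
  refine ⟨S.sup id + 1, fun s s' h => ?_⟩
  rw [← dist_eq_norm]
  exact hS s s' fun k hk => h k (Nat.lt_succ_of_le (Finset.le_sup (f := id) hk))

open Classical in
/-- the system -/
noncomputable def mkSys (c : X × ℕ ≃ I) {e : (ℕ → Bool) → B} (hc : Continuous e) (he : ∀ s, Pj (e s)) {f : B}
    (hf : Pj f) (hef : ∀ s, e s * f = e s) (W : T → I → Bool) : Sys X T B where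
  Act x t := Act c x (W t)
  q x t := if Act c x (W t) then e (par c x (W t)) else 0
  Nr F N t := Agr c F N (W t)
  f := f
  pq x t := by
    split_ifs
    · exact he _
    · exact ⟨by simp [IsIdempotentElem], by simp [isSelfAdjoint_iff]⟩
  pf := hf
  qf x t := by
    split_ifs
    · exact hef _
    · exact zero_mul f
  q0 x t h := if_neg h
  mono := by
    intro F F' N N' t hF hN h x hx y hy hax hay k hk
    exact h x (hF hx) y (hF hy) hax hay k (hk.trans_le hN)
  small := by
    intro η hη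
    obtain ⟨N₀, hN₀⟩ := unif hc hη
    refine ⟨N₀, fun F N hN t ht x hx y hy hax hay => ?_⟩
    rw [if_pos hax, if_pos hay]
    exact (hN₀ _ _ fun k hk => ht x hx y hy hax hay k (hk.trans_le hN)).le
  single := by
    intro F N t x h y hy z hz hay haz k _
    rw [h y hy hay, h z hz haz]

theorem mkSys_hfn [Nonempty X] (c : X × ℕ ≃ I) {e : (ℕ → Bool) → B} (hc : Continuous e) (he : ∀ s, Pj (e s)) {f : B}
    (hf : Pj f) (hef : ∀ s, e s * f = e s) (W : T → I → Bool) (F : Finset X) (N : ℕ) (t : T) :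
    hfn (mkSys c hc he hf hef W) F N t = gfn c e f F N (W t) := by
  unfold hfn gfn
  by_cases h1 : ∃ x ∈ F, Act c x (W t)
  · have h1' : ∃ x ∈ F, (mkSys c hc he hf hef W).Act x t := h1
    rw [if_pos h1, if_pos h1']
    by_cases h2 : Agr c F N (W t)
    · have h2' : (mkSys c hc he hf hef W).Nr F N t := h2
      rw [if_pos h2, if_pos h2']
      exact if_pos (pick_spec h1).2
    · have h2' : ¬ (mkSys c hc he hf hef W).Nr F N t := h2
      rw [if_neg h2, if_neg h2']
      rfl
  · have h1' : ¬ ∃ x ∈ F, (mkSys c hc he hf hef W).Act x t := h1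
    rw [if_neg h1, if_neg h1']

theorem dense_fin [TopologicalSpace T] {W : T → I → Bool} (hW : DenseRange W) (w : I → Bool) (S : Finset I) :
    ∃ t, ∀ i ∈ S, W t i = w i := by
  have ho : IsOpen {w' : I → Bool | ∀ i ∈ S, w' i = w i} := by
    have h4 : {w' : I → Bool | ∀ i ∈ S, w' i = w i} = ⋂ i ∈ S, {w' : I → Bool | w' i = w i} := by
      ext w'
      simp
    rw [h4]
    refine isOpen_biInter_finset fun i _ => ?_
    have h8 : Continuous fun w' : I → Bool => w' i := continuous_apply i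
    exact h8.isOpen_preimage {w i} (isOpen_discrete _)
  obtain ⟨t, ht⟩ := hW.exists_mem_open ho ⟨w, fun i _ => rfl⟩
  exact ⟨t, ht⟩

/-- the separation property -/
theorem mkSys_sep [TopologicalSpace T] (c : X × ℕ ≃ I) {e : (ℕ → Bool) → B} (hc : Continuous e)
    (he : ∀ s, Pj (e s)) {f : B} (hf : Pj f) (hef : ∀ s, e s * f = e s) {W : T → I → Bool} (hW : DenseRange W)
    {t : ℕ → ℕ → Bool} {s₀ : ℕ → Bool} (ht : Tendsto t atTop (𝓝 s₀)) (hne : ∀ n, e (t n) ≠ e s₀) :
    ∀ x y, x ≠ y → ∀ N' : ℕ, ∃ d : ℝ, 0 < d ∧ ∀ C : Finset X, ∃ τ, (mkSys c hc he hf hef W).Act x τ ∧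
      (mkSys c hc he hf hef W).Act y τ ∧
      (∀ u ∈ C, u ≠ x → u ≠ y → ¬ (mkSys c hc he hf hef W).Act u τ) ∧
      d ≤ ‖(mkSys c hc he hf hef W).q x τ - (mkSys c hc he hf hef W).q y τ‖ ∧
      ‖(mkSys c hc he hf hef W).q x τ - (mkSys c hc he hf hef W).q y τ‖ < 1 / 4 ∧
      ∀ F : Finset X, (∀ u ∈ F, (mkSys c hc he hf hef W).Act u τ → u = x ∨ u = y) →
        (mkSys c hc he hf hef W).Nr F N' τ := by
  classical
  intro x y hxy N'
  -- `n` with `t n` near `s₀`
  have h1 : ∀ᶠ n in atTop, ∀ k ∈ Finset.range N', t n k = s₀ k := by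
    rw [Filter.eventually_all_finset]
    intro k _
    exact ((tendsto_pi_nhds.1 ht) k).eventually (IsOpen.mem_nhds (isOpen_discrete {s₀ k}) rfl)
  have h2 : Tendsto (fun n => e (t n)) atTop (𝓝 (e s₀)) := (hc.tendsto _).comp ht
  obtain ⟨n, hn1, hn2⟩ := (h1.and ((Metric.tendsto_nhds.1 h2) (1 / 8) (by norm_num))).exists
  rw [dist_eq_norm] at hn2
  have hpos : 0 < ‖e (t n) - e s₀‖ := norm_pos_iff.2 (sub_ne_zero.2 (hne n))
  set D : ℝ := ‖e (t n) - e s₀‖ with hD
  obtain ⟨M, hM⟩ := unif hc (show 0 < D / 4 by positivity)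
  refine ⟨D / 2, by positivity, fun C => ?_⟩
  obtain ⟨τ, hτ⟩ := dense_fin hW (P2 c x y s₀ (t n))
    (((insert x (insert y C)) ×ˢ Finset.range (max M N' + 2)).image c)
  have hpt : ∀ u ∈ insert x (insert y C), ∀ k < max M N' + 2, W τ (c (u, k)) = P2 c x y s₀ (t n) (c (u, k)) :=
    fun u hu k hk => hτ _ (Finset.mem_image_of_mem _ (Finset.mem_product.2 ⟨hu, Finset.mem_range.2 hk⟩))
  have hxC : x ∈ insert x (insert y C) := Finset.mem_insert_self _ _
  have hyC : y ∈ insert x (insert y C) := Finset.mem_insert_of_mem (Finset.mem_insert_self _ _)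
  have hax : Act c x (W τ) := by
    have h3 := hpt x hxC 0 (by omega)
    unfold Act
    rw [h3]
    unfold P2
    rw [Equiv.symm_apply_apply, if_pos rfl]
    rfl
  have hay : Act c y (W τ) := by
    have h3 := hpt y hyC 0 (by omega)
    unfold Act
    rw [h3]
    unfold P2
    rw [Equiv.symm_apply_apply, if_neg hxy.symm, if_pos rfl]
    rfl
  have hpx : ∀ k < max M N', par c x (W τ) k = s₀ k := by
    intro k hk
    have h3 := hpt x hxC (k + 1) (by omega)
    have h4 := congrFun (P2_par1 c x y s₀ (t n)) k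
    unfold par at h4 ⊢
    rw [h3, h4]
  have hpy : ∀ k < max M N', par c y (W τ) k = t n k := by
    intro k hk
    have h3 := hpt y hyC (k + 1) (by omega)
    have h4 := congrFun (P2_par2 c hxy s₀ (t n)) k
    unfold par at h4 ⊢
    rw [h3, h4]
  have hqx : (mkSys c hc he hf hef W).q x τ = e (par c x (W τ)) := if_pos hax
  have hqy : (mkSys c hc he hf hef W).q y τ = e (par c y (W τ)) := if_pos hay
  have h5 : ‖e (par c x (W τ)) - e s₀‖ < D / 4 := hM _ _ fun k hk => hpx k (hk.trans_le (le_max_left _ _))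
  have h6 : ‖e (par c y (W τ)) - e (t n)‖ < D / 4 := hM _ _ fun k hk => hpy k (hk.trans_le (le_max_left _ _))
  refine ⟨τ, hax, hay, fun u hu hux huy hau => ?_, ?_, ?_, fun F hF => ?_⟩
  · have h3 := hpt u (Finset.mem_insert_of_mem (Finset.mem_insert_of_mem hu)) 0 (by omega)
    have hau' : W τ (c (u, 0)) = true := hau
    rw [h3] at hau'
    rcases P2_act (show Act c u (P2 c x y s₀ (t n)) from hau') with h | h
    · exact hux h
    · exact huy h
  · rw [hqx, hqy]
    have h7 : e (t n) - e s₀ = (e (par c x (W τ)) - e s₀) - (e (par c y (W τ)) - e (t n)) -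
        (e (par c x (W τ)) - e (par c y (W τ))) := by abel
    have h8 : D ≤ D / 4 + D / 4 + ‖e (par c x (W τ)) - e (par c y (W τ))‖ := by
      calc D = ‖(e (par c x (W τ)) - e s₀) - (e (par c y (W τ)) - e (t n)) -
            (e (par c x (W τ)) - e (par c y (W τ)))‖ := by rw [hD, ← h7]
        _ ≤ ‖(e (par c x (W τ)) - e s₀) - (e (par c y (W τ)) - e (t n))‖ +
            ‖e (par c x (W τ)) - e (par c y (W τ))‖ := norm_sub_le _ _
        _ ≤ (‖e (par c x (W τ)) - e s₀‖ + ‖e (par c y (W τ)) - e (t n)‖) +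
            ‖e (par c x (W τ)) - e (par c y (W τ))‖ := add_le_add (norm_sub_le _ _) le_rfl
        _ ≤ D / 4 + D / 4 + ‖e (par c x (W τ)) - e (par c y (W τ))‖ :=
            add_le_add (add_le_add h5.le h6.le) le_rfl
    linarith
  · rw [hqx, hqy]
    have h7 : e (par c x (W τ)) - e (par c y (W τ)) = (e (par c x (W τ)) - e s₀) - (e (t n) - e s₀) -
        (e (par c y (W τ)) - e (t n)) := by abel
    rw [h7]
    calc ‖(e (par c x (W τ)) - e s₀) - (e (t n) - e s₀) - (e (par c y (W τ)) - e (t n))‖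
        ≤ ‖(e (par c x (W τ)) - e s₀) - (e (t n) - e s₀)‖ + ‖e (par c y (W τ)) - e (t n)‖ := norm_sub_le _ _
      _ ≤ (‖e (par c x (W τ)) - e s₀‖ + ‖e (t n) - e s₀‖) + ‖e (par c y (W τ)) - e (t n)‖ :=
          add_le_add (norm_sub_le _ _) le_rfl
      _ < 1 / 4 := by
          have h8 : D < 1 / 8 := hn2
          linarith
  · have hagr : ∀ k < N', s₀ k = t n k := fun k hk => (hn1 k (Finset.mem_range.2 hk)).symm
    have hx' : ∀ k < N', W τ (c (x, k + 1)) = s₀ k := fun k hk => hpx k (hk.trans_le (le_max_right _ _))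
    have hy' : ∀ k < N', W τ (c (y, k + 1)) = s₀ k := fun k hk =>
      (hpy k (hk.trans_le (le_max_right _ _))).trans (hagr k hk).symm
    intro u hu v hv hau hav k hk
    rcases hF u hu hau with rfl | rfl <;> rcases hF v hv hav with rfl | rfl
    · rfl
    · rw [hx' k hk, hy' k hk]
    · rw [hx' k hk, hy' k hk]
    · rfl

end Pool.Agent.Helper18.HF
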