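import Pool.Agent.Helper18.HF.Path

/-! MP_8d2143_an: active coordinates and their parameters, in a Cantor cube with coordinates `X × ℕ`. -/

set_option autoImplicit false

namespace Pool.Agent.Helper18.HF

open Pool.Agent.Helper18.AIU Filter Topology

variable {X I : Type*}

/-- the coordinate `x` is active at `w` -/
def Act (c : X × ℕ ≃ I) (x : X) (w : I → Bool) : Prop := w (c (x, 0)) = true

/-- the parameter of `x` at `w` -/
def par (c : X × ℕ ≃ I) (x : X) (w : I → Bool) : ℕ → Bool := fun k => w (c (x, k + 1))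

/-- `1` followed by `s` -/
def enc (s : ℕ → Bool) : ℕ → Bool
  | 0 => true
  | k + 1 => s k

open Classical in
/-- `x` and `y` are active, with parameters `s` and `t` -/
noncomputable def P2 (c : X × ℕ ≃ I) (x y : X) (s t : ℕ → Bool) : I → Bool := fun i =>
  if (c.symm i).1 = x then enc s (c.symm i).2 else (if (c.symm i).1 = y then enc t (c.symm i).2 else false)

theorem P2_act {c : X × ℕ ≃ I} {x y z : X} {s t : ℕ → Bool} (h : Act c z (P2 c x y s t)) : z = x ∨ z = y := by
  unfold Act P2 at h
  rw [Equiv.symm_apply_apply] at h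
  by_contra hne
  push Not at hne
  rw [if_neg hne.1, if_neg hne.2] at h
  exact Bool.false_ne_true h

theorem P2_par1 (c : X × ℕ ≃ I) (x y : X) (s t : ℕ → Bool) : par c x (P2 c x y s t) = s := by
  funext k
  unfold par P2
  rw [Equiv.symm_apply_apply, if_pos rfl]
  rfl

theorem P2_par2 (c : X × ℕ ≃ I) {x y : X} (hxy : x ≠ y) (s t : ℕ → Bool) : par c y (P2 c x y s t) = t := by
  funext k
  unfold par P2
  rw [Equiv.symm_apply_apply, if_neg hxy.symm, if_pos rfl]
  rfl

variable {B : Type*} [NonUnitalCStarAlgebra B] [Nonempty X]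

/-- the chosen active coordinate -/
noncomputable def pick (c : X × ℕ ≃ I) (F : Finset X) (w : I → Bool) : X :=
  Classical.epsilon fun x => x ∈ F ∧ Act c x w

theorem pick_spec {c : X × ℕ ≃ I} {F : Finset X} {w : I → Bool} (h : ∃ x ∈ F, Act c x w) :
    pick c F w ∈ F ∧ Act c (pick c F w) w := by
  obtain ⟨x, hx, h1⟩ := h
  exact Classical.epsilon_spec (p := fun x => x ∈ F ∧ Act c x w) ⟨x, hx, h1⟩

/-- the active coordinates of `F` agree up to `N` -/
def Agr (c : X × ℕ ≃ I) (F : Finset X) (N : ℕ) (w : I → Bool) : Prop :=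
  ∀ x ∈ F, ∀ y ∈ F, Act c x w → Act c y w → ∀ k < N, w (c (x, k + 1)) = w (c (y, k + 1))

open Classical in
/-- the members of the approximate identity, as functions -/
noncomputable def gfn (c : X × ℕ ≃ I) (e : (ℕ → Bool) → B) (f : B) (F : Finset X) (N : ℕ) (w : I → Bool) : B :=
  if ∃ x ∈ F, Act c x w then (if Agr c F N w then e (par c (pick c F w) w) else f) else 0

theorem gfn_cont {c : X × ℕ ≃ I} {e : (ℕ → Bool) → B} (hc : Continuous e) (f : B) (F : Finset X) (N : ℕ) :
    Continuous (gfn c e f F N) := by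
  classical
  rw [continuous_iff_continuousAt]
  intro w₀
  have h1 : ∀ᶠ w in 𝓝 w₀, ∀ i ∈ (F ×ˢ Finset.range (N + 1)).image c, w i = w₀ i := by
    rw [Filter.eventually_all_finset]
    intro i _
    have h2 : Continuous fun w : I → Bool => w i := continuous_apply i
    exact h2.continuousAt.eventually (IsOpen.mem_nhds (isOpen_discrete {w₀ i}) rfl)
  have h3 : ContinuousAt (fun w : I → Bool => (if ∃ x ∈ F, Act c x w₀ then
      (if Agr c F N w₀ then e (par c (pick c F w₀) w) else f) else 0 : B)) w₀ := by
    split_ifs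
    · have h4 : Continuous fun w : I → Bool => par c (pick c F w₀) w := by
        unfold par
        fun_prop
      exact (hc.comp h4).continuousAt
    · exact continuousAt_const
    · exact continuousAt_const
  have h5 : (fun w : I → Bool => (if ∃ x ∈ F, Act c x w₀ then
      (if Agr c F N w₀ then e (par c (pick c F w₀) w) else f) else 0 : B)) =ᶠ[𝓝 w₀] gfn c e f F N := by
    refine h1.mono fun w hw => ?_
    have hm : ∀ x ∈ F, ∀ k ≤ N, w (c (x, k)) = w₀ (c (x, k)) := by
      intro x hx k hk
      exact hw _ (Finset.mem_image_of_mem _ (Finset.mem_product.2 ⟨hx, Finset.mem_range.2 (Nat.lt_succ_of_le hk)⟩))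
    have hA : ∀ x, (x ∈ F ∧ Act c x w) = (x ∈ F ∧ Act c x w₀) := by
      intro x
      refine propext (and_congr_right fun hx => ?_)
      unfold Act
      rw [hm x hx 0 (Nat.zero_le _)]
    have hp : pick c F w = pick c F w₀ := by
      unfold pick
      congr 1
      funext x
      exact hA x
    have hE : (∃ x ∈ F, Act c x w) ↔ ∃ x ∈ F, Act c x w₀ := by
      simp only [hA]
    have hG : Agr c F N w ↔ Agr c F N w₀ := by
      have hh : ∀ {w w₀ : I → Bool}, (∀ x ∈ F, ∀ k ≤ N, w (c (x, k)) = w₀ (c (x, k))) → Agr c F N w → Agr c F N w₀ := by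
        intro w w₀ hm h x hx y hy hax hay k hk
        rw [← hm x hx (k + 1) hk, ← hm y hy (k + 1) hk]
        refine h x hx y hy ?_ ?_ k hk
        · unfold Act
          rw [hm x hx 0 (Nat.zero_le _)]
          exact hax
        · unfold Act
          rw [hm y hy 0 (Nat.zero_le _)]
          exact hay
      exact ⟨hh hm, hh fun x hx k hk => (hm x hx k hk).symm⟩
    simp only [gfn, hE, hG, hp]
  exact h3.congr h5

end Pool.Agent.Helper18.HF
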