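import Pool.Agent.Helper18.HF.Path
import Pool.Agent.Helper18.HF.Cube

/-! MP_8d2143_an: hereditary subalgebras of the algebra of bounded continuous functions on a space `T`, given by an
almost coherent system of projection valued functions. -/

set_option autoImplicit false

namespace Pool.Agent.Helper18.HF

open Pool.Agent.Helper18.AIU Filter Topology BoundedContinuousFunction

/-- an almost coherent system -/
structure Sys (X T B : Type*) [NonUnitalCStarAlgebra B] where
  /-- `x` is active at `t` -/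
  Act : X → T → Prop
  /-- the values -/
  q : X → T → B
  /-- the active members of `F` agree up to `N` at `t` -/
  Nr : Finset X → ℕ → T → Prop
  /-- the upper bound -/
  f : B
  pq : ∀ x t, Pj (q x t)
  pf : Pj f
  qf : ∀ x t, q x t * f = q x t
  q0 : ∀ x t, ¬ Act x t → q x t = 0
  mono : ∀ {F F' : Finset X} {N N' : ℕ} {t : T}, F ⊆ F' → N ≤ N' → Nr F' N' t → Nr F N t
  small : ∀ η : ℝ, 0 < η → ∃ N₀, ∀ (F : Finset X) (N : ℕ), N₀ ≤ N → ∀ t, Nr F N t →
    ∀ x ∈ F, ∀ y ∈ F, Act x t → Act y t → ‖q x t - q y t‖ ≤ η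
  single : ∀ (F : Finset X) (N : ℕ) (t : T) (x : X), (∀ u ∈ F, Act u t → u = x) → Nr F N t

variable {X T B : Type*} [NonUnitalCStarAlgebra B] [TopologicalSpace T]

/-- `a` fits the system up to `ε` -/
def Fit (S : Sys X T B) (a : T →ᵇ B) (F : Finset X) (N : ℕ) (ε : ℝ) : Prop :=
  ∀ t, S.Nr F N t →
    (∀ x ∈ F, S.Act x t → ‖a t - S.q x t * a t‖ ≤ ε ∧ ‖a t - a t * S.q x t‖ ≤ ε) ∧
    ((∀ x ∈ F, ¬ S.Act x t) → ‖a t‖ ≤ ε)

/-- membership in the hereditary subalgebra -/
def InE (S : Sys X T B) (a : T →ᵇ B) : Prop :=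
  (∀ t, S.f * a t = a t ∧ a t * S.f = a t) ∧ ∀ ε : ℝ, 0 < ε → ∃ (F : Finset X) (N : ℕ), Fit S a F N ε

theorem fit_mono (S : Sys X T B) {a : T →ᵇ B} {F F' : Finset X} {N N' : ℕ} {ε η : ℝ} (h : Fit S a F N ε)
    (hF : F ⊆ F') (hN : N ≤ N') (hη : η * ‖a‖ ≤ ε)
    (hs : ∀ t, S.Nr F' N' t → ∀ x ∈ F', ∀ y ∈ F', S.Act x t → S.Act y t → ‖S.q x t - S.q y t‖ ≤ η) :
    Fit S a F' N' (2 * ε) := by
  intro t ht
  obtain ⟨h1, h2⟩ := h t (S.mono hF hN ht)
  have hat : ‖a t‖ ≤ ‖a‖ := a.norm_coe_le_norm t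
  refine ⟨fun x hx hax => ?_, fun hn => ?_⟩
  · by_cases hz : ∃ z ∈ F, S.Act z t
    · obtain ⟨z, hzF, haz⟩ := hz
      obtain ⟨h3, h4⟩ := h1 z hzF haz
      have h5 := hs t ht z (hF hzF) x hx haz hax
      have h6 : ‖S.q z t - S.q x t‖ * ‖a t‖ ≤ ε :=
        (mul_le_mul h5 hat (norm_nonneg _) ((norm_nonneg _).trans h5)).trans hη
      constructor
      · calc ‖a t - S.q x t * a t‖ = ‖(a t - S.q z t * a t) + (S.q z t - S.q x t) * a t‖ := by
              congr 1
              rw [sub_mul]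
              abel
          _ ≤ ‖a t - S.q z t * a t‖ + ‖(S.q z t - S.q x t) * a t‖ := norm_add_le _ _
          _ ≤ ε + ε := add_le_add h3 ((norm_mul_le _ _).trans h6)
          _ = 2 * ε := by ring
      · calc ‖a t - a t * S.q x t‖ = ‖(a t - a t * S.q z t) + a t * (S.q z t - S.q x t)‖ := by
              congr 1
              rw [mul_sub]
              abel
          _ ≤ ‖a t - a t * S.q z t‖ + ‖a t * (S.q z t - S.q x t)‖ := norm_add_le _ _
          _ ≤ ε + ε := by
              refine add_le_add h4 ((norm_mul_le _ _).trans ?_)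
              rwa [mul_comm]
          _ = 2 * ε := by ring
    · have h7 : ‖a t‖ ≤ ε := h2 fun z hz' haz => hz ⟨z, hz', haz⟩
      constructor
      · calc ‖a t - S.q x t * a t‖ ≤ ‖a t‖ + ‖S.q x t * a t‖ := norm_sub_le _ _
          _ ≤ ε + 1 * ε := by
              refine add_le_add h7 ((norm_mul_le _ _).trans ?_)
              exact mul_le_mul (S.pq x t).norm_le h7 (norm_nonneg _) zero_le_one
          _ = 2 * ε := by ring
      · calc ‖a t - a t * S.q x t‖ ≤ ‖a t‖ + ‖a t * S.q x t‖ := norm_sub_le _ _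
          _ ≤ ε + ε * 1 := by
              refine add_le_add h7 ((norm_mul_le _ _).trans ?_)
              exact mul_le_mul h7 (S.pq x t).norm_le (norm_nonneg _) ((norm_nonneg _).trans h7)
          _ = 2 * ε := by ring
  · have h7 : ‖a t‖ ≤ ε := h2 fun z hz' => hn z (hF hz')
    have h8 : 0 ≤ ε := (norm_nonneg _).trans h7
    linarith

/-- stability -/
theorem InE.stable {S : Sys X T B} {a : T →ᵇ B} (ha : InE S a) {ε : ℝ} (hε : 0 < ε) :
    ∃ (F₀ : Finset X) (N₀ : ℕ), ∀ F N, F₀ ⊆ F → N₀ ≤ N → Fit S a F N ε := by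
  obtain ⟨F₀, N₀, h1⟩ := ha.2 (ε / 2) (half_pos hε)
  obtain ⟨N₁, h2⟩ := S.small (ε / 2 / (‖a‖ + 1)) (by positivity)
  refine ⟨F₀, max N₀ N₁, fun F N hF hN => ?_⟩
  have h3 : ε / 2 / (‖a‖ + 1) * ‖a‖ ≤ ε / 2 := by
    calc ε / 2 / (‖a‖ + 1) * ‖a‖ ≤ ε / 2 / (‖a‖ + 1) * (‖a‖ + 1) :=
          mul_le_mul_of_nonneg_left (by linarith) (by positivity)
      _ = ε / 2 := div_mul_cancel₀ _ (by positivity)
  have h4 := fit_mono S h1 hF ((le_max_left _ _).trans hN) h3 (h2 F N ((le_max_right _ _).trans hN))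
  rwa [mul_div_cancel₀ ε two_ne_zero] at h4

theorem InE.common {S : Sys X T B} {a b : T →ᵇ B} (ha : InE S a) (hb : InE S b) {ε : ℝ} (hε : 0 < ε) :
    ∃ (F : Finset X) (N : ℕ), Fit S a F N ε ∧ Fit S b F N ε := by
  classical
  obtain ⟨F₁, N₁, h2⟩ := ha.stable hε
  obtain ⟨F₂, N₂, h4⟩ := hb.stable hε
  exact ⟨F₁ ∪ F₂, max N₁ N₂, h2 _ _ Finset.subset_union_left (le_max_left _ _),
    h4 _ _ Finset.subset_union_right (le_max_right _ _)⟩

/-- the hereditary subalgebra -/
def Ealg (S : Sys X T B) :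
    NonUnitalStarSubalgebra ℂ (T →ᵇ B) where
  carrier := {a | InE S a}
  add_mem' := by
    intro a b ha hb
    refine ⟨fun t => ⟨?_, ?_⟩, fun ε hε => ?_⟩
    · rw [BoundedContinuousFunction.add_apply, mul_add, (ha.1 t).1, (hb.1 t).1]
    · rw [BoundedContinuousFunction.add_apply, add_mul, (ha.1 t).2, (hb.1 t).2]
    · obtain ⟨F, N, h1, h2⟩ := ha.common hb (half_pos hε)
      refine ⟨F, N, fun t ht => ⟨fun x hx hax => ⟨?_, ?_⟩, fun hn => ?_⟩⟩
      · have h3 := ((h1 t ht).1 x hx hax).1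
        have h4 := ((h2 t ht).1 x hx hax).1
        rw [BoundedContinuousFunction.add_apply]
        calc ‖a t + b t - S.q x t * (a t + b t)‖ = ‖(a t - S.q x t * a t) + (b t - S.q x t * b t)‖ := by
              congr 1
              rw [mul_add]
              abel
          _ ≤ ε / 2 + ε / 2 := (norm_add_le _ _).trans (add_le_add h3 h4)
          _ = ε := add_halves ε
      · have h3 := ((h1 t ht).1 x hx hax).2
        have h4 := ((h2 t ht).1 x hx hax).2
        rw [BoundedContinuousFunction.add_apply]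
        calc ‖a t + b t - (a t + b t) * S.q x t‖ = ‖(a t - a t * S.q x t) + (b t - b t * S.q x t)‖ := by
              congr 1
              rw [add_mul]
              abel
          _ ≤ ε / 2 + ε / 2 := (norm_add_le _ _).trans (add_le_add h3 h4)
          _ = ε := add_halves ε
      · rw [BoundedContinuousFunction.add_apply]
        calc ‖a t + b t‖ ≤ ε / 2 + ε / 2 :=
              (norm_add_le _ _).trans (add_le_add ((h1 t ht).2 hn) ((h2 t ht).2 hn))
          _ = ε := add_halves ε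
  zero_mem' := by
    refine ⟨fun t => ⟨?_, ?_⟩, fun ε hε => ⟨∅, 0, fun t _ => ⟨fun x hx => ?_, fun _ => ?_⟩⟩⟩
    · exact mul_zero S.f
    · exact zero_mul S.f
    · exact absurd hx (Finset.notMem_empty x)
    · show ‖(0 : B)‖ ≤ ε
      rw [norm_zero]
      exact hε.le
  mul_mem' := by
    intro a b ha hb
    refine ⟨fun t => ⟨?_, ?_⟩, fun ε hε => ?_⟩
    · rw [BoundedContinuousFunction.mul_apply, ← mul_assoc, (ha.1 t).1]
    · rw [BoundedContinuousFunction.mul_apply, mul_assoc, (hb.1 t).2]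
    · obtain ⟨F, N, h1, h2⟩ := ha.common hb (ε := ε / (1 + ‖a‖ + ‖b‖)) (by positivity)
      have hb1 : ε / (1 + ‖a‖ + ‖b‖) * ‖b‖ ≤ ε := by
        calc ε / (1 + ‖a‖ + ‖b‖) * ‖b‖ ≤ ε / (1 + ‖a‖ + ‖b‖) * (1 + ‖a‖ + ‖b‖) :=
              mul_le_mul_of_nonneg_left (by linarith [norm_nonneg a]) (by positivity)
          _ = ε := div_mul_cancel₀ _ (by positivity)
      have ha1 : ‖a‖ * (ε / (1 + ‖a‖ + ‖b‖)) ≤ ε := by
        rw [mul_comm]
        calc ε / (1 + ‖a‖ + ‖b‖) * ‖a‖ ≤ ε / (1 + ‖a‖ + ‖b‖) * (1 + ‖a‖ + ‖b‖) :=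
              mul_le_mul_of_nonneg_left (by linarith [norm_nonneg b]) (by positivity)
          _ = ε := div_mul_cancel₀ _ (by positivity)
      refine ⟨F, N, fun t ht => ⟨fun x hx hax => ⟨?_, ?_⟩, fun hn => ?_⟩⟩
      · rw [BoundedContinuousFunction.mul_apply]
        calc ‖a t * b t - S.q x t * (a t * b t)‖ = ‖(a t - S.q x t * a t) * b t‖ := by
              rw [sub_mul, mul_assoc]
          _ ≤ ε / (1 + ‖a‖ + ‖b‖) * ‖b‖ := (norm_mul_le _ _).trans
              (mul_le_mul ((h1 t ht).1 x hx hax).1 (b.norm_coe_le_norm t) (norm_nonneg _) (by positivity))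
          _ ≤ ε := hb1
      · rw [BoundedContinuousFunction.mul_apply]
        calc ‖a t * b t - a t * b t * S.q x t‖ = ‖a t * (b t - b t * S.q x t)‖ := by
              rw [mul_sub, mul_assoc]
          _ ≤ ‖a‖ * (ε / (1 + ‖a‖ + ‖b‖)) := (norm_mul_le _ _).trans
              (mul_le_mul (a.norm_coe_le_norm t) ((h2 t ht).1 x hx hax).2 (norm_nonneg _) (norm_nonneg _))
          _ ≤ ε := ha1
      · rw [BoundedContinuousFunction.mul_apply]
        calc ‖a t * b t‖ ≤ ε / (1 + ‖a‖ + ‖b‖) * ‖b‖ := (norm_mul_le _ _).trans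
              (mul_le_mul ((h1 t ht).2 hn) (b.norm_coe_le_norm t) (norm_nonneg _) (by positivity))
          _ ≤ ε := hb1
  smul_mem' := by
    intro z a ha
    refine ⟨fun t => ⟨?_, ?_⟩, fun ε hε => ?_⟩
    · rw [BoundedContinuousFunction.smul_apply, mul_smul_comm, (ha.1 t).1]
    · rw [BoundedContinuousFunction.smul_apply, smul_mul_assoc, (ha.1 t).2]
    · obtain ⟨F, N, h1⟩ := ha.2 (ε / (1 + ‖z‖)) (by positivity)
      have hz1 : ‖z‖ * (ε / (1 + ‖z‖)) ≤ ε := by
        rw [mul_comm]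
        calc ε / (1 + ‖z‖) * ‖z‖ ≤ ε / (1 + ‖z‖) * (1 + ‖z‖) :=
              mul_le_mul_of_nonneg_left (by linarith) (by positivity)
          _ = ε := div_mul_cancel₀ _ (by positivity)
      refine ⟨F, N, fun t ht => ⟨fun x hx hax => ⟨?_, ?_⟩, fun hn => ?_⟩⟩
      · rw [BoundedContinuousFunction.smul_apply, mul_smul_comm, ← smul_sub, norm_smul]
        exact (mul_le_mul_of_nonneg_left ((h1 t ht).1 x hx hax).1 (norm_nonneg _)).trans hz1
      · rw [BoundedContinuousFunction.smul_apply, smul_mul_assoc, ← smul_sub, norm_smul]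
        exact (mul_le_mul_of_nonneg_left ((h1 t ht).1 x hx hax).2 (norm_nonneg _)).trans hz1
      · rw [BoundedContinuousFunction.smul_apply, norm_smul]
        exact (mul_le_mul_of_nonneg_left ((h1 t ht).2 hn) (norm_nonneg _)).trans hz1
  star_mem' := by
    intro a ha
    refine ⟨fun t => ⟨?_, ?_⟩, fun ε hε => ?_⟩
    · have := congrArg star (ha.1 t).2
      rwa [star_mul, S.pf.2.star_eq] at this
    · have := congrArg star (ha.1 t).1
      rwa [star_mul, S.pf.2.star_eq] at this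
    · obtain ⟨F, N, h1⟩ := ha.2 ε hε
      refine ⟨F, N, fun t ht => ⟨fun x hx hax => ⟨?_, ?_⟩, fun hn => ?_⟩⟩
      · show ‖star (a t) - S.q x t * star (a t)‖ ≤ ε
        have h2 : star (a t) - S.q x t * star (a t) = star (a t - a t * S.q x t) := by
          rw [star_sub, star_mul, (S.pq x t).2.star_eq]
        rw [h2, norm_star]
        exact ((h1 t ht).1 x hx hax).2
      · show ‖star (a t) - star (a t) * S.q x t‖ ≤ ε
        have h2 : star (a t) - star (a t) * S.q x t = star (a t - S.q x t * a t) := by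
          rw [star_sub, star_mul, (S.pq x t).2.star_eq]
        rw [h2, norm_star]
        exact ((h1 t ht).1 x hx hax).1
      · show ‖star (a t)‖ ≤ ε
        rw [norm_star]
        exact (h1 t ht).2 hn

theorem mem_Ealg {S : Sys X T B} {a : T →ᵇ B} : a ∈ Ealg S ↔ InE S a := Iff.rfl

theorem her_Ealg (S : Sys X T B) {a b d : T →ᵇ B} (ha : a ∈ Ealg S) (hd : d ∈ Ealg S) :
    a * b * d ∈ Ealg S := by
  rw [mem_Ealg] at ha hd
  refine ⟨fun t => ⟨?_, ?_⟩, fun ε hε => ?_⟩
  · rw [BoundedContinuousFunction.mul_apply, BoundedContinuousFunction.mul_apply, ← mul_assoc, ← mul_assoc,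
      (ha.1 t).1]
  · rw [BoundedContinuousFunction.mul_apply, mul_assoc, (hd.1 t).2]
  · set M : ℝ := 1 + ‖a * b‖ + ‖b * d‖ with hM
    have hM0 : 0 < M := by positivity
    obtain ⟨F, N, h1, h2⟩ := ha.common hd (ε := ε / M) (by positivity)
    have hb1 : ε / M * ‖b * d‖ ≤ ε := by
      calc ε / M * ‖b * d‖ ≤ ε / M * M :=
            mul_le_mul_of_nonneg_left (by linarith [norm_nonneg (a * b)]) (by positivity)
        _ = ε := div_mul_cancel₀ _ hM0.ne'
    have ha1 : ‖a * b‖ * (ε / M) ≤ ε := by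
      rw [mul_comm]
      calc ε / M * ‖a * b‖ ≤ ε / M * M :=
            mul_le_mul_of_nonneg_left (by linarith [norm_nonneg (b * d)]) (by positivity)
        _ = ε := div_mul_cancel₀ _ hM0.ne'
    refine ⟨F, N, fun t ht => ⟨fun x hx hax => ⟨?_, ?_⟩, fun hn => ?_⟩⟩
    · calc ‖(a * b * d) t - S.q x t * (a * b * d) t‖ = ‖(a t - S.q x t * a t) * (b * d) t‖ := by
            simp only [BoundedContinuousFunction.mul_apply, sub_mul, mul_assoc]
        _ ≤ ε / M * ‖b * d‖ := (norm_mul_le _ _).trans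
            (mul_le_mul ((h1 t ht).1 x hx hax).1 ((b * d).norm_coe_le_norm t) (norm_nonneg _) (by positivity))
        _ ≤ ε := hb1
    · calc ‖(a * b * d) t - (a * b * d) t * S.q x t‖ = ‖(a * b) t * (d t - d t * S.q x t)‖ := by
            simp only [BoundedContinuousFunction.mul_apply, mul_sub, mul_assoc]
        _ ≤ ‖a * b‖ * (ε / M) := (norm_mul_le _ _).trans
            (mul_le_mul ((a * b).norm_coe_le_norm t) ((h2 t ht).1 x hx hax).2 (norm_nonneg _) (norm_nonneg _))
        _ ≤ ε := ha1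
    · calc ‖(a * b * d) t‖ = ‖a t * (b * d) t‖ := by
            simp only [BoundedContinuousFunction.mul_apply, mul_assoc]
        _ ≤ ε / M * ‖b * d‖ := (norm_mul_le _ _).trans
            (mul_le_mul ((h1 t ht).2 hn) ((b * d).norm_coe_le_norm t) (norm_nonneg _) (by positivity))
        _ ≤ ε := hb1

theorem isClosed_Ealg (S : Sys X T B) : IsClosed (Ealg S : Set (T →ᵇ B)) := by
  refine isClosed_of_closure_subset fun a ha => ?_
  have h0 : ∀ ε : ℝ, 0 < ε → ∃ b ∈ Ealg S, ∀ t, ‖a t - b t‖ ≤ ε := by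
    intro ε hε
    obtain ⟨b, hb, h⟩ := Metric.mem_closure_iff.1 ha ε hε
    refine ⟨b, hb, fun t => ?_⟩
    rw [dist_eq_norm] at h
    exact ((a - b).norm_coe_le_norm t).trans h.le
  have hle : ∀ {p u v : B} {ε : ℝ} (_ : Pj p) (_ : ‖u - v‖ ≤ ε), ‖u - p * u‖ ≤ ‖v - p * v‖ + 2 * ε ∧
      ‖u - u * p‖ ≤ ‖v - v * p‖ + 2 * ε := by
    intro p u v ε hp h
    have h' : 0 ≤ ε := (norm_nonneg _).trans h
    constructor
    · calc ‖u - p * u‖ = ‖(v - p * v) + ((u - v) - p * (u - v))‖ := by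
            congr 1
            rw [mul_sub]
            abel
        _ ≤ ‖v - p * v‖ + ‖(u - v) - p * (u - v)‖ := norm_add_le _ _
        _ ≤ ‖v - p * v‖ + (ε + 1 * ε) := by
            refine add_le_add le_rfl ((norm_sub_le _ _).trans (add_le_add h ((norm_mul_le _ _).trans ?_)))
            exact mul_le_mul hp.norm_le h (norm_nonneg _) zero_le_one
        _ = ‖v - p * v‖ + 2 * ε := by ring
    · calc ‖u - u * p‖ = ‖(v - v * p) + ((u - v) - (u - v) * p)‖ := by
            congr 1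
            rw [sub_mul]
            abel
        _ ≤ ‖v - v * p‖ + ‖(u - v) - (u - v) * p‖ := norm_add_le _ _
        _ ≤ ‖v - v * p‖ + (ε + ε * 1) := by
            refine add_le_add le_rfl ((norm_sub_le _ _).trans (add_le_add h ((norm_mul_le _ _).trans ?_)))
            exact mul_le_mul h hp.norm_le (norm_nonneg _) h'
        _ = ‖v - v * p‖ + 2 * ε := by ring
  have hz : ∀ {u v : B} (_ : ∀ ε : ℝ, 0 < ε → ‖u - v‖ ≤ 2 * ε), u = v := by
    intro u v h
    by_contra hne
    have hpos : 0 < ‖u - v‖ := norm_pos_iff.2 (sub_ne_zero.2 hne)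
    have := h (‖u - v‖ / 4) (by positivity)
    linarith
  refine ⟨fun t => ⟨?_, ?_⟩, fun ε hε => ?_⟩
  · symm
    refine hz fun ε hε => ?_
    obtain ⟨b, hb, h⟩ := h0 ε hε
    have h1 := (hle S.pf (h t)).1
    rw [((mem_Ealg.1 hb).1 t).1, sub_self, norm_zero, zero_add] at h1
    exact h1
  · symm
    refine hz fun ε hε => ?_
    obtain ⟨b, hb, h⟩ := h0 ε hε
    have h1 := (hle S.pf (h t)).2
    rw [((mem_Ealg.1 hb).1 t).2, sub_self, norm_zero, zero_add] at h1
    exact h1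
  · obtain ⟨b, hb, h⟩ := h0 (ε / 4) (by positivity)
    obtain ⟨F, N, h1⟩ := (mem_Ealg.1 hb).2 (ε / 4) (by positivity)
    refine ⟨F, N, fun t ht => ⟨fun x hx hax => ⟨?_, ?_⟩, fun hn => ?_⟩⟩
    · have h2 := (hle (S.pq x t) (h t)).1
      have h3 := ((h1 t ht).1 x hx hax).1
      linarith
    · have h2 := (hle (S.pq x t) (h t)).2
      have h3 := ((h1 t ht).1 x hx hax).2
      linarith
    · have h3 := (h1 t ht).2 hn
      have h4 := h t
      calc ‖a t‖ = ‖(a t - b t) + b t‖ := by rw [sub_add_cancel]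
        _ ≤ ‖a t - b t‖ + ‖b t‖ := norm_add_le _ _
        _ ≤ ε := by linarith

end Pool.Agent.Helper18.HF
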